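import Pool.Agent.Lib.MP_aab329_nt.C.Rat

/-!
Serre bound for double covers and pure covers branched along a cone and a divisor off its vertex.
-/

set_option autoImplicit false

namespace Pool.MP_aab329_nt.SerreC

open Real

private lemma Cone_clear {σ : Type*} (F : MvPolynomial σ ℚ) :
    ∃ (N : ℤ) (G : MvPolynomial σ ℤ), N ≠ 0 ∧
      MvPolynomial.map (Int.castRingHom ℚ) G = MvPolynomial.C (N : ℚ) * F := by
  induction F using MvPolynomial.induction_on' with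
  | monomial u a =>
    refine ⟨(a.den : ℤ), MvPolynomial.monomial u a.num, by exact_mod_cast a.den_nz, ?_⟩
    rw [MvPolynomial.map_monomial, MvPolynomial.C_mul_monomial]
    congr 1
    simp only [eq_intCast, Int.cast_natCast]
    rw [mul_comm]
    exact (Rat.mul_den_eq_num a).symm
  | add p q hp hq =>
    obtain ⟨N1, G1, h1, e1⟩ := hp
    obtain ⟨N2, G2, h2, e2⟩ := hq
    refine ⟨N1 * N2, MvPolynomial.C N2 * G1 + MvPolynomial.C N1 * G2, mul_ne_zero h1 h2, ?_⟩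
    rw [map_add, map_mul, map_mul, e1, e2, MvPolynomial.map_C, MvPolynomial.map_C]
    push_cast
    simp only [map_mul, eq_intCast]
    ring

private lemma Cone_ne {σ : Type*} {F : MvPolynomial σ ℚ} {G : MvPolynomial σ ℤ} {r : ℚ}
    (hr : r ≠ 0) (hF : F ≠ 0)
    (h : MvPolynomial.map (Int.castRingHom ℚ) G = MvPolynomial.C r * F) : G ≠ 0 := by
  intro h0
  rw [h0, map_zero] at h
  rcases mul_eq_zero.mp h.symm with h1 | h1
  · exact hr (by simpa using h1)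
  · exact hF h1

private lemma Cone_eval_map {m : ℕ} (G : MvPolynomial (Fin m) ℤ) (x : Fin m → ℤ) :
    MvPolynomial.eval (fun j => ((x j : ℤ) : ℚ)) (MvPolynomial.map (Int.castRingHom ℚ) G) =
      ((MvPolynomial.eval x G : ℤ) : ℚ) := by
  have h : (MvPolynomial.eval (fun j => ((x j : ℤ) : ℚ))).comp
      (MvPolynomial.map (Int.castRingHom ℚ)) = (Int.castRingHom ℚ).comp (MvPolynomial.eval x) := by
    apply MvPolynomial.ringHom_ext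
    · intro r; simp
    · intro i; simp
  have := congrArg (fun g : MvPolynomial (Fin m) ℤ →+* ℚ => g G) h
  simpa using this

private lemma Cone_mem_boxn {m B : ℕ} (x : Fin m → ℤ) :
    x ∈ SerreQ.boxn m B ↔ ∀ i, |x i| ≤ (B : ℤ) := by
  unfold SerreQ.boxn
  rw [Fintype.mem_piFinset]
  constructor
  · intro h i
    rw [abs_le]
    exact Finset.mem_Icc.1 (h i)
  · intro h i
    exact Finset.mem_Icc.2 (abs_le.1 (h i))

private lemma Cone_finite {m : ℕ} (B : ℕ) (p : (Fin m → ℤ) → Prop) :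
    {x : Fin m → ℤ | (∀ i, |x i| ≤ (B : ℤ)) ∧ p x}.Finite := by
  refine Set.Finite.subset (SerreQ.boxn m B).finite_toSet ?_
  rintro x ⟨hx, _⟩
  exact Finset.mem_coe.2 ((Cone_mem_boxn x).2 hx)

private lemma Cone_zeros {n : ℕ} (P : MvPolynomial (Fin (n + 1)) ℚ) (hP : P ≠ 0) :
    ∃ C : ℝ, 0 < C ∧ ∀ B : ℕ, 1 ≤ B →
      (({x : Fin (n + 1) → ℤ | (∀ i, |x i| ≤ (B : ℤ)) ∧
        MvPolynomial.eval (fun i => ((x i : ℤ) : ℚ)) P = 0}.ncard : ℕ) : ℝ) ≤ C * (B : ℝ) ^ n := by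
  obtain ⟨N, P', hN, e⟩ := Cone_clear P
  have hNQ : (N : ℚ) ≠ 0 := by exact_mod_cast hN
  have hP' : P' ≠ 0 := Cone_ne hNQ hP e
  obtain ⟨C, hC, h⟩ := SerreQ.zeros_le P' hP'
  refine ⟨C, hC, fun B hB => ?_⟩
  have hsub : {x : Fin (n + 1) → ℤ | (∀ i, |x i| ≤ (B : ℤ)) ∧
        MvPolynomial.eval (fun i => ((x i : ℤ) : ℚ)) P = 0} ⊆
      (((SerreQ.boxn (n + 1) B).filter (fun x => MvPolynomial.eval x P' = 0) :
        Finset (Fin (n + 1) → ℤ)) : Set (Fin (n + 1) → ℤ)) := by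
    rintro x ⟨hx1, hx2⟩
    rw [Finset.mem_coe, Finset.mem_filter]
    refine ⟨(Cone_mem_boxn x).2 hx1, ?_⟩
    have h1 := congrArg (MvPolynomial.eval (fun i => ((x i : ℤ) : ℚ))) e
    rw [Cone_eval_map, map_mul, hx2, mul_zero] at h1
    exact_mod_cast h1
  have hc := Set.ncard_le_ncard hsub (Finset.finite_toSet _)
  rw [Set.ncard_coe_finset] at hc
  have hcR : (({x : Fin (n + 1) → ℤ | (∀ i, |x i| ≤ (B : ℤ)) ∧
        MvPolynomial.eval (fun i => ((x i : ℤ) : ℚ)) P = 0}.ncard : ℕ) : ℝ) ≤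
      (((SerreQ.boxn (n + 1) B).filter (fun x => MvPolynomial.eval x P' = 0)).card : ℝ) := by
    exact_mod_cast hc
  exact hcR.trans (h B hB)

private lemma Cone_comb {m : ℕ} (P : MvPolynomial (Fin (m + 2)) ℚ) (hP : P ≠ 0)
    (p q : (Fin (m + 2) → ℤ) → Prop)
    (hpq : ∀ x, q x → MvPolynomial.eval (fun i => ((x i : ℤ) : ℚ)) P ≠ 0 → p x)
    (h : ∃ (c : ℕ) (C : ℝ), 0 ≤ C ∧ ∀ B : ℕ, 2 ≤ B →
      ({x : Fin (m + 2) → ℤ | (∀ i, |x i| ≤ (B : ℤ)) ∧ p x}.ncard : ℝ) ≤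
        C * (B : ℝ) ^ (m + 1) * (log B) ^ c) :
    ∃ (c : ℕ) (C : ℝ), ∀ B : ℕ, 2 ≤ B →
      (({x : Fin (m + 2) → ℤ | (∀ i, |x i| ≤ (B : ℤ)) ∧ q x}.ncard : ℕ) : ℝ) ≤
        C * (B : ℝ) ^ (m + 1) * (log (B : ℝ)) ^ c := by
  obtain ⟨C1, hC1, h1⟩ := Cone_zeros P hP
  obtain ⟨c, C2, hC2, h2⟩ := h
  refine ⟨c, C1 / (log 2) ^ c + C2, fun B hB => ?_⟩
  have hlog2 : 0 < log 2 := Real.log_pos (by norm_num)
  have hB2 : (2 : ℝ) ≤ B := by exact_mod_cast hB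
  have hlogB : log 2 ≤ log (B : ℝ) := Real.log_le_log (by norm_num) hB2
  have hsub : {x : Fin (m + 2) → ℤ | (∀ i, |x i| ≤ (B : ℤ)) ∧ q x} ⊆
      {x : Fin (m + 2) → ℤ | (∀ i, |x i| ≤ (B : ℤ)) ∧
        MvPolynomial.eval (fun i => ((x i : ℤ) : ℚ)) P = 0} ∪
      {x : Fin (m + 2) → ℤ | (∀ i, |x i| ≤ (B : ℤ)) ∧ p x} := by
    rintro x ⟨hx1, hx2⟩
    by_cases h0 : MvPolynomial.eval (fun i => ((x i : ℤ) : ℚ)) P = 0
    · exact Or.inl ⟨hx1, h0⟩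
    · exact Or.inr ⟨hx1, hpq x hx2 h0⟩
  have hfin := (Cone_finite (m := m + 2) B
    (fun x => MvPolynomial.eval (fun i => ((x i : ℤ) : ℚ)) P = 0)).union (Cone_finite B p)
  have hc := (Set.ncard_le_ncard hsub hfin).trans (Set.ncard_union_le _ _)
  have hcR : (({x : Fin (m + 2) → ℤ | (∀ i, |x i| ≤ (B : ℤ)) ∧ q x}.ncard : ℕ) : ℝ) ≤
      (({x : Fin (m + 2) → ℤ | (∀ i, |x i| ≤ (B : ℤ)) ∧
        MvPolynomial.eval (fun i => ((x i : ℤ) : ℚ)) P = 0}.ncard : ℕ) : ℝ) +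
      (({x : Fin (m + 2) → ℤ | (∀ i, |x i| ≤ (B : ℤ)) ∧ p x}.ncard : ℕ) : ℝ) := by
    exact_mod_cast hc
  have g1 := h1 B (by omega)
  have g2 := h2 B hB
  have f1 : C1 * (B : ℝ) ^ (m + 1) ≤ C1 / (log 2) ^ c * (B : ℝ) ^ (m + 1) * (log (B : ℝ)) ^ c := by
    have e1 : C1 * (B : ℝ) ^ (m + 1) = C1 / (log 2) ^ c * (B : ℝ) ^ (m + 1) * (log 2) ^ c := by
      field_simp
    rw [e1]
    exact mul_le_mul_of_nonneg_left (pow_le_pow_left₀ hlog2.le hlogB c) (by positivity)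
  have f2 : (C1 / (log 2) ^ c + C2) * (B : ℝ) ^ (m + 1) * (log (B : ℝ)) ^ c =
      C1 / (log 2) ^ c * (B : ℝ) ^ (m + 1) * (log (B : ℝ)) ^ c +
        C2 * (B : ℝ) ^ (m + 1) * (log (B : ℝ)) ^ c := by ring
  rw [f2]
  linarith

/-- Double covers: as in `Lib/MP_aab329_nt/Q/Fin.lean` (`(2 α t + β)^2 = disc`; points with
`P(x) = 0` by `zeros_le`; otherwise `F₁(x) G(x)` is a rational square). -/
theorem serre_cone {m : ℕ} (F : MvPolynomial (Option (Fin (m + 2))) ℚ)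
    (hdeg : F.degreeOf none = 2) (F₁ G P : MvPolynomial (Fin (m + 2)) ℚ)
    (d₁ d₂ : ℕ) (h₁ : F₁.IsHomogeneous d₁) (h₂ : G.IsHomogeneous d₂) (hP : P ≠ 0)
    (Q : Fin (m + 2) → ℚ)
    (hQ : ∀ (x : Fin (m + 2) → ℚ) (c : ℚ),
      MvPolynomial.eval (fun i => x i + c * Q i) F₁ = MvPolynomial.eval x F₁)
    (hGQ : MvPolynomial.eval Q G ≠ 0)
    (hfs : ∀ (c : ℚ) (R : MvPolynomial (Fin (m + 2)) ℚ), F₁ ≠ MvPolynomial.C c * R ^ 2)
    (hGs : ∀ (c : ℚ) (R : MvPolynomial (Fin (m + 2)) ℚ), G ≠ MvPolynomial.C c * R ^ 2)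
    (hdisc : (MvPolynomial.optionEquivLeft ℚ (Fin (m + 2)) F).discr = F₁ * G * P ^ 2) :
    ∃ (c : ℕ) (C : ℝ), ∀ B : ℕ, 2 ≤ B →
      (({x : Fin (m + 2) → ℤ | (∀ i, |x i| ≤ (B : ℤ)) ∧
          ∃ t : ℚ, MvPolynomial.eval
            (fun i : Option (Fin (m + 2)) => Option.elim i t (fun j => ((x j : ℤ) : ℚ))) F =
              0}.ncard : ℕ) : ℝ)
        ≤ C * (B : ℝ) ^ (m + 1) * (log (B : ℝ)) ^ c := by
  refine Cone_comb P hP (fun x => ∃ T : ℚ,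
    MvPolynomial.eval (fun i => ((x i : ℤ) : ℚ)) (F₁ * G) = T ^ 2) _ ?_
    (count_rat 2 Nat.prime_two F₁ G d₁ d₂ h₁ h₂ Q hQ hGQ hfs hGs)
  rintro x ⟨t, ht⟩ hPX
  obtain ⟨q, hq⟩ : ∃ q, q = MvPolynomial.optionEquivLeft ℚ (Fin (m + 2)) F := ⟨_, rfl⟩
  have hF0 : F ≠ 0 := by
    intro h0
    rw [h0] at hdeg
    simp at hdeg
  have hdegq : q.degree = 2 := by
    rw [hq, MvPolynomial.degree_optionEquivLeft _ hF0, hdeg]; rfl
  have hnd : q.natDegree = 2 := Polynomial.natDegree_eq_of_degree_eq_some hdegq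
  rw [← hq, Polynomial.discr_of_degree_eq_two hdegq] at hdisc
  rw [MvPolynomial.optionEquivLeft_elim_eval, ← hq] at ht
  obtain ⟨X, hX⟩ : ∃ X : Fin (m + 2) → ℚ, X = fun j => ((x j : ℤ) : ℚ) := ⟨_, rfl⟩
  rw [← hX] at ht hPX
  have hqe : (Polynomial.map (MvPolynomial.eval X) q).eval t =
      MvPolynomial.eval X (q.coeff 0) + MvPolynomial.eval X (q.coeff 1) * t +
        MvPolynomial.eval X (q.coeff 2) * t ^ 2 := by
    rw [Polynomial.eval_eq_sum_range' (n := 3)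
      (lt_of_le_of_lt (Polynomial.natDegree_map_le) (by omega))]
    simp [Finset.sum_range_succ]
  rw [hqe] at ht
  have hd := congrArg (MvPolynomial.eval X) hdisc
  simp only [map_sub, map_mul, map_pow] at hd
  have h4 : MvPolynomial.eval X (4 : MvPolynomial (Fin (m + 2)) ℚ) = 4 :=
    map_ofNat (MvPolynomial.eval X) 4
  rw [h4] at hd
  refine ⟨(2 * MvPolynomial.eval X (q.coeff 2) * t +
    MvPolynomial.eval X (q.coeff 1)) / MvPolynomial.eval X P, ?_⟩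
  rw [← hX, map_mul, div_pow, eq_div_iff (pow_ne_zero 2 hPX), ← hd]
  linear_combination (-4 * MvPolynomial.eval X (q.coeff 2)) * ht

/-- Pure covers `A t^D = C` of prime degree: `(A t)^D = A^(D-1) C`; points with `A(x) = 0` or
`P(x) = 0` by `zeros_le`. -/
theorem serre_pure {m : ℕ} (D : ℕ) (hD : D.Prime) (A C F₁ G P : MvPolynomial (Fin (m + 2)) ℚ)
    (d₁ d₂ : ℕ) (h₁ : F₁.IsHomogeneous d₁) (h₂ : G.IsHomogeneous d₂) (hA : A ≠ 0) (hP : P ≠ 0)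
    (Q : Fin (m + 2) → ℚ)
    (hQ : ∀ (x : Fin (m + 2) → ℚ) (c : ℚ),
      MvPolynomial.eval (fun i => x i + c * Q i) F₁ = MvPolynomial.eval x F₁)
    (hGQ : MvPolynomial.eval Q G ≠ 0)
    (hfs : ∀ (c : ℚ) (R : MvPolynomial (Fin (m + 2)) ℚ), F₁ ≠ MvPolynomial.C c * R ^ D)
    (hGs : ∀ (c : ℚ) (R : MvPolynomial (Fin (m + 2)) ℚ), G ≠ MvPolynomial.C c * R ^ D)
    (hAC : A ^ (D - 1) * C = F₁ * G * P ^ D) :
    ∃ (c : ℕ) (K : ℝ), ∀ B : ℕ, 2 ≤ B →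
      (({x : Fin (m + 2) → ℤ | (∀ i, |x i| ≤ (B : ℤ)) ∧
          ∃ t : ℚ, MvPolynomial.eval (fun i => ((x i : ℤ) : ℚ)) A * t ^ D =
            MvPolynomial.eval (fun i => ((x i : ℤ) : ℚ)) C}.ncard : ℕ) : ℝ)
        ≤ K * (B : ℝ) ^ (m + 1) * (log (B : ℝ)) ^ c := by
  have _ := hA
  refine Cone_comb P hP (fun x => ∃ T : ℚ,
    MvPolynomial.eval (fun i => ((x i : ℤ) : ℚ)) (F₁ * G) = T ^ D) _ ?_
    (count_rat D hD F₁ G d₁ d₂ h₁ h₂ Q hQ hGQ hfs hGs)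
  rintro x ⟨t, ht⟩ hPX
  obtain ⟨X, hX⟩ : ∃ X : Fin (m + 2) → ℚ, X = fun j => ((x j : ℤ) : ℚ) := ⟨_, rfl⟩
  rw [← hX] at ht hPX
  have hd := congrArg (MvPolynomial.eval X) hAC
  simp only [map_mul, map_pow] at hd
  refine ⟨MvPolynomial.eval X A * t / MvPolynomial.eval X P, ?_⟩
  rw [← hX, map_mul, div_pow, eq_div_iff (pow_ne_zero D hPX), ← hd, ← ht, mul_pow]
  obtain ⟨e, rfl⟩ : ∃ e, D = e + 1 := ⟨D - 1, by have := hD.pos; omega⟩
  rw [Nat.add_sub_cancel]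
  ring

end Pool.MP_aab329_nt.SerreC
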