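import Pool.Agent.Lib.MP_aab329_nt.C.Main

/-!
The count without coordinates: a cone `F₁` with vertex `Q`, `G(Q) ≠ 0`.
-/

set_option autoImplicit false

namespace Pool.MP_aab329_nt.SerreC

open Finset Real Pool.MP_aab329_nt.SerreQ

/-- Substitution of the linear forms given by the rows of a matrix. -/
private noncomputable def cSub {n k : ℕ} {R : Type*} [CommRing R] (A : Matrix (Fin n) (Fin k) R) :
    MvPolynomial (Fin n) R →ₐ[R] MvPolynomial (Fin k) R :=
  MvPolynomial.aeval fun i => ∑ j, MvPolynomial.C (A i j) * MvPolynomial.X j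

private theorem eval_cSub {n k : ℕ} {R : Type*} [CommRing R] (A : Matrix (Fin n) (Fin k) R)
    (p : MvPolynomial (Fin n) R) (y : Fin k → R) :
    MvPolynomial.eval y (cSub A p) = MvPolynomial.eval (A.mulVec y) p := by
  rw [cSub, MvPolynomial.aeval_def, MvPolynomial.algebraMap_eq]
  rw [show MvPolynomial.eval₂ MvPolynomial.C
      (fun i => ∑ j, MvPolynomial.C (A i j) * MvPolynomial.X j) p =
      MvPolynomial.bind₁ (fun i => ∑ j, MvPolynomial.C (A i j) * MvPolynomial.X j) p from rfl]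
  rw [show MvPolynomial.eval y = MvPolynomial.eval₂Hom (RingHom.id R) y from rfl,
    MvPolynomial.eval₂Hom_bind₁]
  rw [MvPolynomial.coe_eval₂Hom, show MvPolynomial.eval (A.mulVec y) p =
    MvPolynomial.eval₂ (RingHom.id R) (A.mulVec y) p from rfl]
  congr 1
  ext i
  simp [Matrix.mulVec, dotProduct]

private theorem cSub_hom {n k : ℕ} {R : Type*} [CommRing R] (A : Matrix (Fin n) (Fin k) R)
    (p : MvPolynomial (Fin n) R) (d : ℕ) (hp : p.IsHomogeneous d) : (cSub A p).IsHomogeneous d := by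
  have h := hp.aeval (fun i => ∑ j, MvPolynomial.C (A i j) * MvPolynomial.X j) (n := 1) (by
    intro i
    refine MvPolynomial.IsHomogeneous.sum _ _ _ fun j _ => ?_
    exact MvPolynomial.isHomogeneous_C_mul_X _ _)
  rw [one_mul] at h
  exact h

private theorem map_cSub {n k : ℕ} (A : Matrix (Fin n) (Fin k) ℤ)
    (p : MvPolynomial (Fin n) ℤ) :
    MvPolynomial.map (Int.castRingHom ℚ) (cSub A p) =
      cSub (A.map (Int.castRingHom ℚ)) (MvPolynomial.map (Int.castRingHom ℚ) p) := by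
  rw [cSub, cSub]
  rw [show MvPolynomial.aeval (fun i => ∑ j, MvPolynomial.C (A i j) * MvPolynomial.X j) p =
      MvPolynomial.bind₁ (fun i => ∑ j, MvPolynomial.C (A i j) * MvPolynomial.X j) p from rfl,
    MvPolynomial.map_bind₁]
  rw [show MvPolynomial.aeval (fun i => ∑ j, MvPolynomial.C (A.map (Int.castRingHom ℚ) i j) *
      MvPolynomial.X j) (MvPolynomial.map (Int.castRingHom ℚ) p) =
      MvPolynomial.bind₁ (fun i => ∑ j, MvPolynomial.C (A.map (Int.castRingHom ℚ) i j) *
      MvPolynomial.X j) (MvPolynomial.map (Int.castRingHom ℚ) p) from rfl]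
  congr 2
  ext1 i
  rw [map_sum]
  refine Finset.sum_congr rfl fun j _ => ?_
  rw [map_mul, MvPolynomial.map_C, MvPolynomial.map_X, Matrix.map_apply]

private theorem lead_of_hom {n : ℕ} (F : MvPolynomial (Fin (n + 1)) ℤ) (d : ℕ)
    (hF : F.IsHomogeneous d) (c₀ : ℤ) (hc : c₀ ≠ 0)
    (he : MvPolynomial.eval (Fin.cons 1 0 : Fin (n + 1) → ℤ) F = c₀) : Lead F d c₀ := by
  have hlow : ∀ i, i < d → MvPolynomial.eval (0 : Fin n → ℤ)
      ((MvPolynomial.finSuccEquiv ℤ n F).coeff i) = 0 := by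
    intro i hi
    have h := hF.finSuccEquiv_coeff_isHomogeneous i (d - i) (by omega)
    rw [MvPolynomial.eval_zero, MvPolynomial.constantCoeff_eq]
    exact h.coeff_eq_zero (by rw [map_zero]; omega)
  have hnat : (MvPolynomial.finSuccEquiv ℤ n F).natDegree ≤ d := by
    rw [MvPolynomial.natDegree_finSuccEquiv]
    exact (MvPolynomial.degreeOf_le_totalDegree F 0).trans hF.totalDegree_le
  have hC : (MvPolynomial.finSuccEquiv ℤ n F).coeff d = MvPolynomial.C (MvPolynomial.coeff 0
      ((MvPolynomial.finSuccEquiv ℤ n F).coeff d)) := by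
    have h := hF.finSuccEquiv_coeff_isHomogeneous d 0 (by omega)
    exact MvPolynomial.totalDegree_eq_zero_iff_eq_C.1
      (MvPolynomial.totalDegree_zero_iff_isHomogeneous _ |>.2 h)
  have hev : MvPolynomial.eval (0 : Fin n → ℤ) ((MvPolynomial.finSuccEquiv ℤ n F).coeff d) =
      c₀ := by
    rw [MvPolynomial.eval_eq_eval_mv_eval'] at he
    rw [Polynomial.eval_eq_sum_range' (n := d + 1)] at he
    · rw [Finset.sum_range_succ, Finset.sum_eq_zero] at he
      · rw [Polynomial.coeff_map, one_pow, mul_one, zero_add] at he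
        exact he
      · intro i hi
        rw [Polynomial.coeff_map, one_pow, mul_one]
        exact hlow i (Finset.mem_range.1 hi)
    · exact lt_of_le_of_lt (Polynomial.natDegree_map_le) (by omega)
  have hc' : MvPolynomial.coeff 0 ((MvPolynomial.finSuccEquiv ℤ n F).coeff d) = c₀ := by
    rw [hC, MvPolynomial.eval_C] at hev
    exact hev
  rw [hc'] at hC
  refine ⟨?_, hC, hc⟩
  refine le_antisymm hnat (Polynomial.le_natDegree_of_ne_zero ?_)
  rw [hC]
  intro h0
  exact hc (MvPolynomial.C_injective _ _ (by rw [h0, map_zero]))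

private theorem eval_smul_hom {n : ℕ} (F : MvPolynomial (Fin n) ℤ) (d : ℕ)
    (hF : F.IsHomogeneous d) (a : ℤ) (x : Fin n → ℤ) :
    MvPolynomial.eval (fun i => a * x i) F = a ^ d * MvPolynomial.eval x F := by
  rw [MvPolynomial.eval_eq', MvPolynomial.eval_eq', Finset.mul_sum]
  refine Finset.sum_congr rfl fun s hs => ?_
  have h := hF.degree_eq_sum_deg_support hs
  rw [Finset.prod_congr rfl fun i _ => mul_pow a (x i) (s i), Finset.prod_mul_distrib,
    Finset.prod_pow_eq_pow_sum]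
  have h2 : ∑ i, s i = d := by
    rw [h]
    exact (Finset.sum_subset (Finset.subset_univ _) (fun i _ hi => by
      simpa using hi)).symm
  rw [h2]
  ring

/-- Completion to a nonsingular matrix. -/
private theorem exists_matrix {m : ℕ} (Q R : Fin (m + 2) → ℤ)
    (hli : ∀ a b : ℤ, (∀ i, a * Q i + b * R i = 0) → a = 0 ∧ b = 0) :
    ∃ M : Matrix (Fin (m + 2)) (Fin (m + 2)) ℤ, M.det ≠ 0 ∧ (∀ i, M i 0 = Q i) ∧
      ∀ i, M i 1 = R i := by
  classical
  -- a nonzero minor
  obtain ⟨i, hi⟩ : ∃ i, Q i ≠ 0 := by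
    by_contra hcon
    push Not at hcon
    have := (hli 1 0 (fun i => by rw [hcon i]; ring)).1
    exact one_ne_zero this
  obtain ⟨j, hj⟩ : ∃ j, Q i * R j - R i * Q j ≠ 0 := by
    by_contra hcon
    push Not at hcon
    have := (hli (-R i) (Q i) (fun j => by have := hcon j; linarith)).2
    exact hi this
  have hij : i ≠ j := by
    rintro rfl
    exact hj (by ring)
  obtain ⟨σ, hσ0, hσ1⟩ : ∃ σ : Equiv.Perm (Fin (m + 2)), σ 0 = i ∧ σ 1 = j := by
    have hj' : (0 : Fin (m + 2)) ≠ (Equiv.swap (0 : Fin (m + 2)) i).symm j := by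
      intro h
      apply hij
      have h2 := congrArg (Equiv.swap (0 : Fin (m + 2)) i) h
      rw [Equiv.swap_apply_left, Equiv.apply_symm_apply] at h2
      exact h2
    have h01 : (0 : Fin (m + 2)) ≠ 1 := Fin.zero_ne_one
    refine ⟨(Equiv.swap (1 : Fin (m + 2)) ((Equiv.swap (0 : Fin (m + 2)) i).symm j)).trans
      (Equiv.swap (0 : Fin (m + 2)) i), ?_, ?_⟩
    · rw [Equiv.trans_apply, Equiv.swap_apply_of_ne_of_ne h01 hj']
      exact Equiv.swap_apply_left _ _
    · rw [Equiv.trans_apply, Equiv.swap_apply_left, Equiv.apply_symm_apply]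
  refine ⟨fun a b => if b = 0 then Q a else if b = 1 then R a else if a = σ b then 1 else 0,
    ?_, ?_, ?_⟩
  · rw [Ne, ← Matrix.exists_mulVec_eq_zero_iff]
    rintro ⟨v, hv, hv0⟩
    have hrow : ∀ a, Q a * v 0 + R a * v 1 +
        ∑ b ∈ (univ : Finset (Fin (m + 2))).filter (fun b => b ≠ 0 ∧ b ≠ 1),
          (if a = σ b then v b else 0) = 0 := by
      intro a
      have h1 := congrFun hv0 a
      rw [Matrix.mulVec, dotProduct] at h1
      rw [← Finset.sum_filter_add_sum_filter_not _ (fun b => b ≠ 0 ∧ b ≠ 1)] at h1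
      have h2 : (univ : Finset (Fin (m + 2))).filter (fun b => ¬ (b ≠ 0 ∧ b ≠ 1)) = {0, 1} := by
        ext b
        simp only [mem_filter, mem_univ, true_and, mem_insert, mem_singleton]
        tauto
      rw [h2, Finset.sum_pair Fin.zero_ne_one] at h1
      have h3 : ∑ b ∈ (univ : Finset (Fin (m + 2))).filter (fun b => b ≠ 0 ∧ b ≠ 1),
          (if b = 0 then Q a else if b = 1 then R a else if a = σ b then 1 else 0) * v b =
          ∑ b ∈ (univ : Finset (Fin (m + 2))).filter (fun b => b ≠ 0 ∧ b ≠ 1),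
          (if a = σ b then v b else 0) := by
        refine Finset.sum_congr rfl fun b hb => ?_
        obtain ⟨_, hb0, hb1⟩ := Finset.mem_filter.1 hb
        rw [if_neg hb0, if_neg hb1]
        split_ifs <;> ring
      rw [h3] at h1
      have h4 : ((1 : Fin (m + 2)) = 0) = False := by
        simp
      simp only [if_true, h4, if_false, Pi.zero_apply] at h1
      linarith
    have hzi : ∑ b ∈ (univ : Finset (Fin (m + 2))).filter (fun b => b ≠ 0 ∧ b ≠ 1),
          (if i = σ b then v b else 0) = 0 := by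
      refine Finset.sum_eq_zero fun b hb => ?_
      obtain ⟨_, hb0, hb1⟩ := Finset.mem_filter.1 hb
      rw [if_neg]
      rw [← hσ0]
      intro h
      exact hb0 (σ.injective h).symm
    have hzj : ∑ b ∈ (univ : Finset (Fin (m + 2))).filter (fun b => b ≠ 0 ∧ b ≠ 1),
          (if j = σ b then v b else 0) = 0 := by
      refine Finset.sum_eq_zero fun b hb => ?_
      obtain ⟨_, hb0, hb1⟩ := Finset.mem_filter.1 hb
      rw [if_neg]
      rw [← hσ1]
      intro h
      exact hb1 (σ.injective h).symm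
    have hri := hrow i
    have hrj := hrow j
    rw [hzi, add_zero] at hri
    rw [hzj, add_zero] at hrj
    have hv1 : v 1 = 0 := by
      have h5 : (Q i * R j - R i * Q j) * v 1 = 0 := by
        have : (Q i * R j - R i * Q j) * v 1 =
            Q i * (Q j * v 0 + R j * v 1) - Q j * (Q i * v 0 + R i * v 1) := by ring
        rw [this, hri, hrj]
        ring
      exact (mul_eq_zero.1 h5).resolve_left hj
    have hv00 : v 0 = 0 := by
      rw [hv1, mul_zero, add_zero] at hri
      exact (mul_eq_zero.1 hri).resolve_left hi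
    apply hv
    ext b
    rw [Pi.zero_apply]
    by_cases hb0 : b = 0
    · rw [hb0]; exact hv00
    by_cases hb1 : b = 1
    · rw [hb1]; exact hv1
    have h6 := hrow (σ b)
    rw [hv00, hv1, mul_zero, mul_zero, add_zero, zero_add, Finset.sum_eq_single b] at h6
    · rwa [if_pos rfl] at h6
    · intro b' _ hb'
      rw [if_neg]
      intro h
      exact hb' (σ.injective h).symm
    · intro h
      exact absurd (Finset.mem_filter.2 ⟨Finset.mem_univ _, hb0, hb1⟩) h
  · intro a
    exact if_pos rfl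
  · intro a
    have h10 : ¬ (1 : Fin (m + 2)) = 0 := by simp
    exact (if_neg h10).trans (if_pos rfl)

/-- Proof. `F₁ ≠ 0` of degree `d₁ ≥ 1`; choose an integral `R` with `F₁(R) ≠ 0`; `F₁(Q) = F₁(0) = 0`
and `F₁(c Q) = 0`, so `Q, R` are linearly independent over `ℚ` (note `Q ≠ 0`: `G(Q) ≠ 0` and `G` has
degree `≥ 1`); complete to an integral matrix `M` with columns `Q, R, …`, `δ = det M ≠ 0`. Put
`F₁'(y) = F₁(M y)`, `G'(y) = G(M y)`. `F₁'` does not involve `y₀`: `F₁' = rename Fin.succ f`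
(a polynomial with `F(x + c e₀) = F(x)` for all integers `c` has degree 0 in `x₀`), `f` has the
constant leading coefficient `F₁(R)` in `y₁` (`Lead f d₁ (F₁(R))`, as `F₁'` is a form), `G'` has
the leading coefficient `G(Q)` in `y₀`. For `x` in the box `y = adj(M) x` is in a box `K N`,
`M y = δ x`, `F₁'(y) = δ^d₁ F₁(x)`, `G'(y) = δ^d₂ G(x)`; choose `j` with `D ∣ j + d₁ + d₂` and
replace `G'` by `δ^j G'`. The map `x ↦ y` is injective. Then `main_c`. The conditions (not a
constant times a `D`-th power) carry over since `y ↦ M y` is invertible over `ℚ`. -/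
theorem main_coord {m : ℕ} (D : ℕ) (hD : D.Prime) (F₁ G : MvPolynomial (Fin (m + 2)) ℤ)
    (d₁ d₂ : ℕ) (h₁ : F₁.IsHomogeneous d₁) (h₂ : G.IsHomogeneous d₂) (Q : Fin (m + 2) → ℤ)
    (hQ : ∀ (x : Fin (m + 2) → ℤ) (c : ℤ),
      MvPolynomial.eval (fun i => x i + c * Q i) F₁ = MvPolynomial.eval x F₁)
    (hGQ : MvPolynomial.eval Q G ≠ 0)
    (hfs : ∀ (c : ℚ) (P : MvPolynomial (Fin (m + 2)) ℚ),
      MvPolynomial.map (Int.castRingHom ℚ) F₁ ≠ MvPolynomial.C c * P ^ D)
    (hGs : ∀ (c : ℚ) (P : MvPolynomial (Fin (m + 2)) ℚ),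
      MvPolynomial.map (Int.castRingHom ℚ) G ≠ MvPolynomial.C c * P ^ D) :
    ∃ (c : ℕ) (C : ℝ), 0 < C ∧ ∀ N : ℕ, 3 ≤ N →
      ({x : Fin (m + 2) → ℤ | (∀ i, |x i| ≤ (N : ℤ)) ∧ ∃ T : ℤ,
        MvPolynomial.eval x F₁ * MvPolynomial.eval x G = T ^ D}.ncard : ℝ) ≤
        C * (N : ℝ) ^ (m + 1) * (log N) ^ c := by
  classical
  -- positive degrees
  have hposdeg : ∀ (F : MvPolynomial (Fin (m + 2)) ℤ) (d : ℕ), F.IsHomogeneous d →
      (∀ (c : ℚ) (P : MvPolynomial (Fin (m + 2)) ℚ),
      MvPolynomial.map (Int.castRingHom ℚ) F ≠ MvPolynomial.C c * P ^ D) → d ≠ 0 := by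
    intro F d hF hns hd
    subst hd
    have h := MvPolynomial.totalDegree_eq_zero_iff_eq_C.1
      (MvPolynomial.totalDegree_zero_iff_isHomogeneous _ |>.2 hF)
    apply hns ((MvPolynomial.coeff 0 F : ℤ) : ℚ) 1
    rw [h, MvPolynomial.map_C, one_pow, mul_one, MvPolynomial.coeff_C, if_pos rfl]
    rfl
  have hd₁ : d₁ ≠ 0 := hposdeg F₁ d₁ h₁ hfs
  have hd₂ : d₂ ≠ 0 := hposdeg G d₂ h₂ hGs
  have hF0 : F₁ ≠ 0 := by
    rintro rfl
    apply hfs 0 1
    rw [map_zero, map_zero, zero_mul]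
  obtain ⟨R, hR⟩ : ∃ R : Fin (m + 2) → ℤ, MvPolynomial.eval R F₁ ≠ 0 := by
    by_contra hcon
    push Not at hcon
    exact hF0 (MvPolynomial.funext (fun x => by rw [hcon x, map_zero]))
  have hzero : ∀ (F : MvPolynomial (Fin (m + 2)) ℤ) (d : ℕ), F.IsHomogeneous d → d ≠ 0 →
      MvPolynomial.eval (fun _ => (0 : ℤ)) F = 0 := by
    intro F d hF hd
    have h := eval_smul_hom F d hF 0 (fun _ => 0)
    rw [zero_pow hd, zero_mul] at h
    simpa using h
  -- independence
  have hli : ∀ a b : ℤ, (∀ i, a * Q i + b * R i = 0) → a = 0 ∧ b = 0 := by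
    intro a b hab
    have hb : b = 0 := by
      have h3 : MvPolynomial.eval (fun i => b * R i) F₁ = 0 := by
        rw [show (fun i => b * R i) = fun i => (fun _ => (0 : ℤ)) i + (-a) * Q i from
          funext fun i => by have := hab i; simp only; linarith, hQ]
        exact hzero F₁ d₁ h₁ hd₁
      rw [eval_smul_hom F₁ d₁ h₁] at h3
      have h4 := (mul_eq_zero.1 h3).resolve_right hR
      exact eq_zero_of_pow_eq_zero h4
    refine ⟨?_, hb⟩
    by_contra ha
    apply hGQ
    have h3 : Q = fun _ => (0 : ℤ) := by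
      funext i
      have h4 := hab i
      rw [hb, zero_mul, add_zero] at h4
      exact (mul_eq_zero.1 h4).resolve_left ha
    rw [h3]
    exact hzero G d₂ h₂ hd₂
  obtain ⟨M, hdet, hM0, hM1⟩ := exists_matrix Q R hli
  set δ := M.det with hδ
  set f : MvPolynomial (Fin (m + 1)) ℤ := cSub (M.submatrix id Fin.succ) F₁ with hf
  have hFf : cSub M F₁ = MvPolynomial.rename Fin.succ f := by
    apply MvPolynomial.funext
    intro y
    rw [eval_cSub, MvPolynomial.eval_rename, hf, eval_cSub]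
    rw [← hQ ((M.submatrix id Fin.succ).mulVec (y ∘ Fin.succ)) (y 0)]
    congr 1
    congr 1
    funext i
    rw [Matrix.mulVec, Matrix.mulVec, dotProduct, dotProduct, Fin.sum_univ_succ, hM0]
    simp only [Matrix.submatrix_apply, id_eq, Function.comp_apply]
    ring
  have hfev : ∀ y : Fin (m + 2) → ℤ, MvPolynomial.eval (Fin.tail y) f =
      MvPolynomial.eval (M.mulVec y) F₁ := by
    intro y
    rw [← eval_cSub, hFf, MvPolynomial.eval_rename]
    rfl
  obtain ⟨j, hj⟩ : ∃ j : ℕ, D ∣ j + d₁ + d₂ := by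
    refine ⟨(D - 1) * (d₁ + d₂), (d₁ + d₂), ?_⟩
    have := hD.one_lt
    obtain ⟨E, rfl⟩ : ∃ E, D = E + 1 := ⟨D - 1, by omega⟩
    simp only [Nat.add_sub_cancel]
    ring
  obtain ⟨k, hk⟩ := hj
  set G' : MvPolynomial (Fin (m + 2)) ℤ := MvPolynomial.C (δ ^ j) * cSub M G with hG'
  have hLf : Lead f d₁ (MvPolynomial.eval R F₁) := by
    refine lead_of_hom f d₁ (cSub_hom _ _ _ h₁) _ hR ?_
    rw [hf, eval_cSub]
    congr 2
    funext i
    rw [Matrix.mulVec, dotProduct, Fin.sum_univ_succ]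
    simp only [Matrix.submatrix_apply, id_eq, Fin.cons_zero, Fin.cons_succ, Pi.zero_apply,
      mul_zero, Finset.sum_const_zero, add_zero, mul_one]
    rw [show (Fin.succ (0 : Fin (m + 1))) = 1 from rfl]
    exact hM1 i
  have hLG : Lead G' d₂ (δ ^ j * MvPolynomial.eval Q G) := by
    refine lead_of_hom G' d₂ ((cSub_hom _ _ _ h₂).C_mul _) _
      (mul_ne_zero (pow_ne_zero _ hdet) hGQ) ?_
    rw [hG', map_mul, MvPolynomial.eval_C, eval_cSub]
    congr 3
    funext i
    rw [Matrix.mulVec, dotProduct, Fin.sum_univ_succ]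
    simp only [Fin.cons_zero, Fin.cons_succ, Pi.zero_apply,
      mul_zero, Finset.sum_const_zero, add_zero, mul_one]
    exact hM0 i
  -- the rational inverse
  set Mq : Matrix (Fin (m + 2)) (Fin (m + 2)) ℚ := M.map (Int.castRingHom ℚ) with hMq
  have hMqdet : Mq.det ≠ 0 := by
    have : Mq.det = (Int.castRingHom ℚ) M.det := by
      rw [RingHom.map_det]
      rfl
    rw [this]
    have h3 : ((M.det : ℤ) : ℚ) ≠ 0 := Int.cast_ne_zero.2 hdet
    exact h3
  have hinv : ∀ p : MvPolynomial (Fin (m + 2)) ℚ, cSub Mq⁻¹ (cSub Mq p) = p := by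
    intro p
    apply MvPolynomial.funext
    intro y
    rw [eval_cSub, eval_cSub, Matrix.mulVec_mulVec, Matrix.mul_nonsing_inv _
      (isUnit_iff_ne_zero.2 hMqdet), Matrix.one_mulVec]
  have hfs' : ∀ (c : ℚ) (P : MvPolynomial (Fin (m + 1)) ℚ),
      MvPolynomial.map (Int.castRingHom ℚ) f ≠ MvPolynomial.C c * P ^ D := by
    intro c P hcP
    apply hfs c (cSub Mq⁻¹ (MvPolynomial.rename Fin.succ P))
    rw [← hinv (MvPolynomial.map (Int.castRingHom ℚ) F₁), ← map_cSub, hFf,
      MvPolynomial.map_rename, hcP]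
    simp only [map_mul, map_pow, MvPolynomial.rename_C]
    rw [← MvPolynomial.algebraMap_eq, AlgHom.commutes]
  have hGs' : ∀ (c : ℚ) (P : MvPolynomial (Fin (m + 2)) ℚ),
      MvPolynomial.map (Int.castRingHom ℚ) G' ≠ MvPolynomial.C c * P ^ D := by
    intro c P hcP
    have hδq : ((δ : ℤ) : ℚ) ^ j ≠ 0 := pow_ne_zero _ (by exact_mod_cast hdet)
    apply hGs ((((δ : ℤ) : ℚ) ^ j)⁻¹ * c) (cSub Mq⁻¹ P)
    have h3 : MvPolynomial.C (((δ : ℤ) : ℚ) ^ j) *
        cSub Mq (MvPolynomial.map (Int.castRingHom ℚ) G) = MvPolynomial.C c * P ^ D := by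
      rw [← hcP, hG', map_mul, MvPolynomial.map_C, map_cSub]
      congr 2
      rw [map_pow]
      rfl
    have h4 : cSub Mq (MvPolynomial.map (Int.castRingHom ℚ) G) =
        MvPolynomial.C ((((δ : ℤ) : ℚ) ^ j)⁻¹ * c) * P ^ D := by
      rw [MvPolynomial.C_mul, mul_assoc, ← h3, ← mul_assoc, ← MvPolynomial.C_mul,
        inv_mul_cancel₀ hδq, MvPolynomial.C_1, one_mul]
    rw [← hinv (MvPolynomial.map (Int.castRingHom ℚ) G), h4, map_mul, map_pow,
      ← MvPolynomial.algebraMap_eq, AlgHom.commutes]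
  obtain ⟨c, C, hC, hmain⟩ := main_c D hD f G' d₁ d₂ _ _ hLf hLG hfs' hGs'
  -- size of the adjugate
  set Kz : ℕ := 1 + ∑ a, ∑ b, (M.adjugate a b).natAbs with hKz
  have hK1 : 1 ≤ Kz := by omega
  have hlogK : 0 ≤ log (Kz : ℝ) := Real.log_nonneg (by exact_mod_cast hK1)
  refine ⟨c, C * (Kz : ℝ) ^ (m + 1) * (log Kz + 1) ^ c, by positivity, ?_⟩
  intro N hN
  have hN3 : (3 : ℝ) ≤ N := by exact_mod_cast hN
  have hlog : 1 ≤ log (N : ℝ) := by
    rw [Real.le_log_iff_exp_le (by positivity)]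
    exact (Real.exp_one_lt_d9.le.trans (by norm_num)).trans hN3
  have hKN : 3 ≤ Kz * N := by nlinarith
  have h5 := hmain (Kz * N) hKN
  have hfinite : {x : Fin (m + 2) → ℤ | x ∈ boxn (m + 2) (Kz * N) ∧ ∃ T : ℤ,
        MvPolynomial.eval (Fin.tail x) f * MvPolynomial.eval x G' = T ^ D}.Finite :=
    (Finset.finite_toSet (boxn (m + 2) (Kz * N))).subset fun x hx => hx.1
  have hMy : ∀ x : Fin (m + 2) → ℤ, M.mulVec (M.adjugate.mulVec x) = fun i => δ * x i := by
    intro x
    rw [Matrix.mulVec_mulVec, Matrix.mul_adjugate, Matrix.smul_mulVec, Matrix.one_mulVec]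
    rfl
  have h6 : {x : Fin (m + 2) → ℤ | (∀ i, |x i| ≤ (N : ℤ)) ∧ ∃ T : ℤ,
        MvPolynomial.eval x F₁ * MvPolynomial.eval x G = T ^ D}.ncard ≤
      {x : Fin (m + 2) → ℤ | x ∈ boxn (m + 2) (Kz * N) ∧ ∃ T : ℤ,
        MvPolynomial.eval (Fin.tail x) f * MvPolynomial.eval x G' = T ^ D}.ncard := by
    refine Set.ncard_le_ncard_of_injOn (fun x => M.adjugate.mulVec x) ?_ ?_ hfinite
    · rintro x ⟨hx, T, hT⟩
      refine ⟨?_, δ ^ k * T, ?_⟩
      · rw [boxn, Fintype.mem_piFinset]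
        intro a
        rw [Finset.mem_Icc, ← abs_le]
        rw [Matrix.mulVec, dotProduct]
        calc |∑ b, M.adjugate a b * x b| ≤ ∑ b, |M.adjugate a b * x b| :=
              Finset.abs_sum_le_sum_abs _ _
          _ ≤ ∑ b, ((M.adjugate a b).natAbs : ℤ) * N := by
              refine Finset.sum_le_sum fun b _ => ?_
              rw [abs_mul, Int.abs_eq_natAbs (M.adjugate a b)]
              exact mul_le_mul_of_nonneg_left (hx b) (by positivity)
          _ = (∑ b, ((M.adjugate a b).natAbs : ℤ)) * N := by rw [Finset.sum_mul]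
          _ ≤ (Kz : ℤ) * N := by
              refine mul_le_mul_of_nonneg_right ?_ (by positivity)
              have h7 : ∑ b, (M.adjugate a b).natAbs ≤ Kz := by
                have := Finset.single_le_sum (s := univ)
                  (f := fun a => ∑ b, (M.adjugate a b).natAbs) (fun _ _ => Nat.zero_le _)
                  (Finset.mem_univ a)
                have h9 : ∑ b, (M.adjugate a b).natAbs ≤
                  ∑ a, ∑ b, (M.adjugate a b).natAbs := this
                omega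
              exact_mod_cast h7
          _ = ((Kz * N : ℕ) : ℤ) := by push_cast; ring
      · rw [hfev, hMy, hG', map_mul, MvPolynomial.eval_C, eval_cSub, hMy,
          eval_smul_hom F₁ d₁ h₁, eval_smul_hom G d₂ h₂]
        rw [show δ ^ d₁ * MvPolynomial.eval x F₁ * (δ ^ j * (δ ^ d₂ * MvPolynomial.eval x G)) =
          δ ^ (j + d₁ + d₂) * (MvPolynomial.eval x F₁ * MvPolynomial.eval x G) by
            rw [pow_add, pow_add]; ring]
        rw [hT, hk, mul_comm D k, pow_mul, ← mul_pow]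
    · intro x _ y _ hxy
      have hxy' : M.adjugate.mulVec x = M.adjugate.mulVec y := hxy
      have h8 := hMy x
      rw [hxy', hMy y] at h8
      funext i
      have h9 : δ * y i = δ * x i := congrFun h8 i
      exact (mul_left_cancel₀ hdet h9).symm
  have h7 : (({x : Fin (m + 2) → ℤ | (∀ i, |x i| ≤ (N : ℤ)) ∧ ∃ T : ℤ,
        MvPolynomial.eval x F₁ * MvPolynomial.eval x G = T ^ D}.ncard : ℕ) : ℝ) ≤
      C * ((Kz * N : ℕ) : ℝ) ^ (m + 1) * (log ((Kz * N : ℕ) : ℝ)) ^ c := by
    refine le_trans ?_ h5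
    exact_mod_cast h6
  refine h7.trans ?_
  have hlogKN : log ((Kz * N : ℕ) : ℝ) ≤ (log Kz + 1) * log N := by
    push_cast
    rw [Real.log_mul (by positivity) (by positivity)]
    nlinarith
  have hlogKN0 : 0 ≤ log ((Kz * N : ℕ) : ℝ) := Real.log_nonneg (by
    exact_mod_cast (by omega : 1 ≤ Kz * N))
  calc C * ((Kz * N : ℕ) : ℝ) ^ (m + 1) * (log ((Kz * N : ℕ) : ℝ)) ^ c
      ≤ C * ((Kz * N : ℕ) : ℝ) ^ (m + 1) * ((log Kz + 1) * log N) ^ c := by
        refine mul_le_mul_of_nonneg_left (pow_le_pow_left₀ hlogKN0 hlogKN _) (by positivity)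
    _ = C * (Kz : ℝ) ^ (m + 1) * (log Kz + 1) ^ c * (N : ℝ) ^ (m + 1) * (log N) ^ c := by
        push_cast
        rw [mul_pow, mul_pow]
        ring

end Pool.MP_aab329_nt.SerreC
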