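import Pool.Agent.Lib.MP_aab329_nt.Q.Tau

/-!
The part of an integer that is not a `D`-th power.
-/

set_option autoImplicit false

namespace Pool.MP_aab329_nt.SerreC

open Finset Pool.MP_aab329_nt.SerreQ

/-- Product of the primes whose exponent in `a` is not a multiple of `D`. -/
noncomputable def rk (D : ℕ) (a : ℤ) : ℕ :=
  ∏ p ∈ a.natAbs.primeFactors.filter (fun p => ¬ D ∣ a.natAbs.factorization p), p

private theorem mem_S (D n p : ℕ) :
    p ∈ n.primeFactors.filter (fun p => ¬ D ∣ n.factorization p) ↔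
      p.Prime ∧ ¬ D ∣ n.factorization p := by
  rw [mem_filter]
  constructor
  · rintro ⟨h1, h2⟩
    exact ⟨Nat.prime_of_mem_primeFactors h1, h2⟩
  · rintro ⟨h1, h2⟩
    refine ⟨?_, h2⟩
    rw [← Nat.support_factorization, Finsupp.mem_support_iff]
    intro h0
    exact h2 (by rw [h0]; exact dvd_zero D)

private theorem S_ext (D n m : ℕ)
    (h : ∀ p, p.Prime → (D ∣ n.factorization p ↔ D ∣ m.factorization p)) :
    n.primeFactors.filter (fun p => ¬ D ∣ n.factorization p) =
      m.primeFactors.filter (fun p => ¬ D ∣ m.factorization p) := by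
  ext p
  rw [mem_S, mem_S]
  constructor
  · rintro ⟨h1, h2⟩
    exact ⟨h1, fun h3 => h2 ((h p h1).2 h3)⟩
  · rintro ⟨h1, h2⟩
    exact ⟨h1, fun h3 => h2 ((h p h1).1 h3)⟩

theorem rk_pos (D : ℕ) (a : ℤ) : 1 ≤ rk D a := by
  unfold rk
  rw [Nat.one_le_iff_ne_zero, Finset.prod_ne_zero_iff]
  intro p hp
  exact ((mem_S _ _ _).1 hp).1.ne_zero

theorem rk_squarefree (D : ℕ) (a : ℤ) : Squarefree (rk D a) := by
  unfold rk
  refine Finset.squarefree_prod_of_pairwise_isCoprime (R := ℕ) ?_ ?_
  · intro p hp q hq hpq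
    rw [Finset.mem_coe] at hp hq
    have h1 := ((mem_S _ _ _).1 hp).1
    have h2 := ((mem_S _ _ _).1 hq).1
    have h3 : IsRelPrime p q := Nat.coprime_iff_isRelPrime.1 ((Nat.coprime_primes h1 h2).2 hpq)
    exact h3
  · intro p hp
    have h3 : Prime p := ((mem_S _ _ _).1 hp).1.prime
    exact h3.squarefree

theorem rk_dvd (D : ℕ) (a : ℤ) : rk D a ∣ a.natAbs := by
  unfold rk
  refine Finset.prod_primes_dvd _ (fun p hp => ((mem_S _ _ _).1 hp).1.prime) fun p hp => ?_
  exact Nat.dvd_of_mem_primeFactors (Finset.mem_filter.1 hp).1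

/-- If `a b` is a nonzero `D`-th power, each prime of `rk D a` divides `b`. -/
theorem rk_dvd_of_pow (D : ℕ) (a b T : ℤ) (ha : a ≠ 0) (hb : b ≠ 0) (h : a * b = T ^ D) :
    (rk D a : ℤ) ∣ b := by
  rw [Int.natCast_dvd]
  unfold rk
  refine Finset.prod_primes_dvd _ (fun p hp => ((mem_S _ _ _).1 hp).1.prime) fun p hp => ?_
  obtain ⟨h1, h2⟩ := (mem_S _ _ _).1 hp
  have h3 : a.natAbs * b.natAbs = T.natAbs ^ D := by
    rw [← Int.natAbs_mul, h, Int.natAbs_pow]
  have h4 := congrArg (fun n => n.factorization p) h3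
  rw [Nat.factorization_mul (Int.natAbs_ne_zero.2 ha) (Int.natAbs_ne_zero.2 hb),
    Nat.factorization_pow, Finsupp.add_apply, Finsupp.smul_apply, smul_eq_mul] at h4
  by_contra h5
  rw [Nat.factorization_eq_zero_of_not_dvd h5, add_zero] at h4
  exact h2 ⟨_, h4⟩

theorem rk_pow (D : ℕ) (hD : D.Prime) (e : ℤ) (he : e ≠ 0) : rk D (e ^ (D - 1)) = rk D e := by
  unfold rk
  rw [S_ext D (e ^ (D - 1)).natAbs e.natAbs]
  intro p _
  rw [Int.natAbs_pow, Nat.factorization_pow, Finsupp.smul_apply, smul_eq_mul]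
  have h1 : Nat.Coprime D (D - 1) := by
    have h2 := hD.two_le
    have h3 : D - 1 + 1 = D := by omega
    rw [Nat.coprime_comm]
    nth_rewrite 2 [← h3]
    simp
  exact h1.dvd_mul_left

/-- `a = e z^D` with all exponents of `e` at most `D - 1` (and the sign of `a`). -/
theorem core (D : ℕ) (hD : 2 ≤ D) (a : ℤ) (ha : a ≠ 0) : ∃ e z : ℤ, a = e * z ^ D ∧ e ≠ 0 ∧
    e.natAbs ∣ rk D a ^ (D - 1) ∧ rk D e = rk D a := by
  set n := a.natAbs with hn
  have hn0 : n ≠ 0 := Int.natAbs_ne_zero.2 ha
  set E : ℕ := ∏ p ∈ n.primeFactors, p ^ (n.factorization p % D) with hE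
  set Z : ℕ := ∏ p ∈ n.primeFactors, p ^ (n.factorization p / D) with hZ
  have hEZ : n = E * Z ^ D := by
    rw [hE, hZ, ← Finset.prod_pow, ← Finset.prod_mul_distrib]
    conv_lhs => rw [← Nat.prod_factorization_pow_eq_self hn0]
    rw [Finsupp.prod, Nat.support_factorization]
    refine Finset.prod_congr rfl fun p _ => ?_
    rw [← pow_mul, ← pow_add]
    congr 1
    have := Nat.mod_add_div (n.factorization p) D
    rw [mul_comm D] at this
    exact this.symm
  have hE0 : E ≠ 0 := by
    intro h0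
    rw [h0, zero_mul] at hEZ
    exact hn0 hEZ
  have hfE : ∀ p, p.Prime → E.factorization p = n.factorization p % D := by
    intro p hp
    rw [hE, Nat.factorization_prod, Finsupp.finsetSum_apply]
    · by_cases hpn : p ∈ n.primeFactors
      · rw [Finset.sum_eq_single p]
        · rw [hp.factorization_pow, Finsupp.single_eq_same]
        · intro q hq hqp
          rw [(Nat.prime_of_mem_primeFactors hq).factorization_pow]
          exact Finsupp.single_eq_of_ne (Ne.symm hqp)
        · intro h; exact absurd hpn h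
      · rw [Finset.sum_eq_zero]
        · have : n.factorization p = 0 := by
            rw [← Finsupp.notMem_support_iff, Nat.support_factorization]
            exact hpn
          rw [this, Nat.zero_mod]
        · intro q hq
          rw [(Nat.prime_of_mem_primeFactors hq).factorization_pow]
          refine Finsupp.single_eq_of_ne ?_
          rintro rfl
          exact hpn hq
    · intro q hq
      exact pow_ne_zero _ (Nat.prime_of_mem_primeFactors hq).ne_zero
  refine ⟨a.sign * E, Z, ?_, ?_, ?_, ?_⟩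
  · have h1 : a = a.sign * (n : ℤ) := by
      rw [hn]; exact (Int.sign_mul_natAbs a).symm
    conv_lhs => rw [h1, hEZ]
    push_cast
    ring
  · refine mul_ne_zero ?_ (by exact_mod_cast hE0)
    rwa [Ne, Int.sign_eq_zero_iff_zero]
  · have h1 : (a.sign * (E : ℤ)).natAbs = E := by
      rw [Int.natAbs_mul, Int.natAbs_sign_of_ne_zero ha, one_mul, Int.natAbs_natCast]
    rw [h1]
    have h2 : E = ∏ p ∈ n.primeFactors.filter (fun p => ¬ D ∣ n.factorization p),
        p ^ (n.factorization p % D) := by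
      rw [hE, Finset.prod_filter]
      refine Finset.prod_congr rfl fun p _ => ?_
      split_ifs with h3
      · rw [Nat.mod_eq_zero_of_dvd h3, pow_zero]
      · rfl
    rw [h2]
    unfold rk
    rw [← Finset.prod_pow]
    refine Finset.prod_dvd_prod_of_dvd _ _ fun p _ => pow_dvd_pow p ?_
    have := Nat.mod_lt (n.factorization p) (show 0 < D by omega)
    omega
  · have h1 : (a.sign * (E : ℤ)).natAbs = E := by
      rw [Int.natAbs_mul, Int.natAbs_sign_of_ne_zero ha, one_mul, Int.natAbs_natCast]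
    unfold rk
    rw [h1, ← hn, S_ext D E n]
    intro p hp
    rw [hfE p hp]
    exact Nat.dvd_mod_iff (dvd_refl D)

end Pool.MP_aab329_nt.SerreC
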