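import Pool.Agent.Lib.MP_aab329_nt.CurveBound

/-!
Integral points of `T^D = g(u)`, uniformly in `g`.
-/

set_option autoImplicit false

namespace Pool.MP_aab329_nt.SerreC

open Polynomial Real Pool.MP_aab329_nt.SerreP

private theorem CurveOne_finite (m : ℕ) (f : (MvPolynomial (Fin 3) ℤ)[X]) (u v : Fin 3 → ℤ)
    (h : ℚ[X][X]) (U V W : ℝ) :
    {q : ℤ × ℤ | ∃ τ : ℤ, IsPt m f u v h U V W q.1 q.2 τ}.Finite := by
  refine Set.Finite.subset (Set.Finite.prod (Set.finite_Icc (-⌈U⌉) ⌈U⌉)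
    (Set.finite_Icc (-⌈V⌉) ⌈V⌉)) ?_
  rintro ⟨a, b⟩ ⟨τ, hq⟩
  have h1 := hq.hα
  have h2 := hq.hβ
  simp only at h1 h2
  rw [abs_le] at h1 h2
  have hU := Int.le_ceil U
  have hV := Int.le_ceil V
  simp only [Set.mem_prod, Set.mem_Icc]
  refine ⟨⟨?_, ?_⟩, ⟨?_, ?_⟩⟩
  · have : ((-⌈U⌉ : ℤ) : ℝ) ≤ (a : ℝ) := by push_cast; linarith
    exact_mod_cast this
  · have : (a : ℝ) ≤ ((⌈U⌉ : ℤ) : ℝ) := by linarith
    exact_mod_cast this
  · have : ((-⌈V⌉ : ℤ) : ℝ) ≤ (b : ℝ) := by push_cast; linarith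
    exact_mod_cast this
  · have : (b : ℝ) ≤ ((⌈V⌉ : ℤ) : ℝ) := by linarith
    exact_mod_cast this

/-- Kummer and Gauss. -/
private theorem CurveOne_irr {D : ℕ} (hD : D.Prime) (A : ℚ[X]) (hA : ∀ q : ℚ[X], A ≠ q ^ D) :
    Irreducible (X ^ D - C A : ℚ[X][X]) := by
  have hmon : (X ^ D - C A : ℚ[X][X]).Monic := monic_X_pow_sub_C A hD.ne_zero
  rw [hmon.irreducible_iff_irreducible_map_fraction_map (K := FractionRing ℚ[X])]
  rw [Polynomial.map_sub, Polynomial.map_pow, map_X, map_C]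
  refine X_pow_sub_C_irreducible_of_prime hD fun b hb => ?_
  have hint : IsIntegral ℚ[X] (b ^ D) := by
    rw [hb]
    exact isIntegral_algebraMap
  obtain ⟨q, hq⟩ := IsIntegrallyClosed.exists_algebraMap_eq_of_isIntegral_pow hD.pos hint
  apply hA q
  apply IsFractionRing.injective ℚ[X] (FractionRing ℚ[X])
  rw [map_pow, hq, hb]

/-- The form of degree `N` of the polynomial `g`. -/
private noncomputable def CurveOneG (N d : ℕ) (g : ℤ[X]) : MvPolynomial (Fin 3) ℤ :=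
  ∑ i ∈ Finset.range (d + 1), MvPolynomial.C (g.coeff i) *
    ((MvPolynomial.X 0) ^ i * (MvPolynomial.X 1) ^ (N - i))

private theorem CurveOneG_hom {N d : ℕ} (hN : d ≤ N) (g : ℤ[X]) :
    (CurveOneG N d g).IsHomogeneous N := by
  unfold CurveOneG
  refine MvPolynomial.IsHomogeneous.sum _ _ _ fun i hi => ?_
  have hi' : i ≤ d := Nat.lt_succ_iff.1 (Finset.mem_range.1 hi)
  have h1 := (MvPolynomial.isHomogeneous_C (Fin 3) (g.coeff i)).mul
    (((MvPolynomial.isHomogeneous_X ℤ (0 : Fin 3)).pow i).mul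
      ((MvPolynomial.isHomogeneous_X ℤ (1 : Fin 3)).pow (N - i)))
  have h2 : 0 + (1 * i + 1 * (N - i)) = N := by omega
  rwa [h2] at h1

private theorem CurveOneG_eval {N d : ℕ} {g : ℤ[X]} (hg : g.natDegree ≤ d) (a : ℤ) :
    MvPolynomial.eval₂ (Int.castRingHom ℤ) (![a, 1, 0] : Fin 3 → ℤ) (CurveOneG N d g) =
      g.eval a := by
  unfold CurveOneG
  rw [Polynomial.eval_eq_sum_range' (n := d + 1) (by omega), MvPolynomial.eval₂_sum]
  refine Finset.sum_congr rfl fun i _ => ?_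
  simp [MvPolynomial.eval₂_mul, MvPolynomial.eval₂_pow, MvPolynomial.eval₂_X]

private theorem CurveOne_wmonic {m D : ℕ} (hD : 0 < D) {G : MvPolynomial (Fin 3) ℤ}
    (hG : G.IsHomogeneous (m * D)) : WMonic m D (X ^ D - C G) := by
  have hdeg : (X ^ D - C G : (MvPolynomial (Fin 3) ℤ)[X]).natDegree = D := by
    rw [natDegree_sub_C, natDegree_X_pow]
  refine ⟨monic_X_pow_sub_C G hD.ne', hdeg, ?_⟩
  intro i hi
  rw [coeff_sub, coeff_X_pow, coeff_C]
  rcases Nat.eq_zero_or_pos i with h0 | h0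
  · subst h0
    rw [if_neg hD.ne, if_pos rfl, zero_sub, Nat.sub_zero]
    exact hG.neg
  · rw [if_neg h0.ne', sub_zero]
    split_ifs with h1
    · rw [h1, Nat.sub_self, mul_zero]
      exact MvPolynomial.isHomogeneous_one (Fin 3) ℤ
    · exact MvPolynomial.isHomogeneous_zero (Fin 3) ℤ _

private theorem CurveOne_sp {R : Type*} [CommRing R] (D : ℕ) (G : MvPolynomial (Fin 3) ℤ)
    (x : Fin 3 → R) :
    sp (X ^ D - C G) x = X ^ D - C (MvPolynomial.eval₂ (Int.castRingHom R) x G) := by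
  unfold sp
  simp

private theorem CurveOne_pt (D d : ℕ) (hD : D.Prime) (g : ℤ[X]) (hg : g.natDegree ≤ d)
    {U W : ℝ} {a T : ℤ} (ha : |(a : ℝ)| ≤ U) (h0 : g.eval a ≠ 0) (hT : g.eval a = T ^ D)
    (hW : |((g.eval a : ℤ) : ℝ)| ≤ W) :
    IsPt (d + 1) (X ^ D - C (CurveOneG ((d + 1) * D) d g)) ![1, 0, 0] ![0, 1, 0]
      (X ^ D - C (g.map (Int.castRingHom ℚ))) U 1 (D * W) a 1 T := by
  have hD0 : 0 < D := hD.pos
  have hx : (fun c => a * (![1, 0, 0] : Fin 3 → ℤ) c + 1 * (![0, 1, 0] : Fin 3 → ℤ) c) =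
      ![a, 1, 0] := by
    funext c
    fin_cases c <;> simp
  have hsp : sp (X ^ D - C (CurveOneG ((d + 1) * D) d g))
      (fun c => a * (![1, 0, 0] : Fin 3 → ℤ) c + 1 * (![0, 1, 0] : Fin 3 → ℤ) c) =
      X ^ D - C (g.eval a) := by
    rw [hx, CurveOne_sp, CurveOneG_eval hg]
  have hT0 : T ≠ 0 := by
    rintro rfl
    rw [zero_pow hD.ne_zero] at hT
    exact h0 hT
  have hT1 : (1 : ℝ) ≤ |(T : ℝ)| := by
    have : 1 ≤ |T| := Int.one_le_abs hT0
    exact_mod_cast this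
  have hTW : |(T : ℝ)| ^ D ≤ W := by
    rw [hT] at hW
    push_cast at hW
    rwa [abs_pow] at hW
  have hW0 : 0 ≤ W := (abs_nonneg _).trans hW
  have hD1 : (1 : ℝ) ≤ D := by exact_mod_cast hD.one_le
  have hTle : |(T : ℝ)| ≤ W := (le_self_pow₀ hT1 hD.ne_zero).trans hTW
  have hTle' : |(T : ℝ)| ^ (D - 1) ≤ W := (pow_le_pow_right₀ hT1 (Nat.sub_le _ _)).trans hTW
  have hder : (derivative (sp (X ^ D - C (CurveOneG ((d + 1) * D) d g))
      (fun c => a * (![1, 0, 0] : Fin 3 → ℤ) c + 1 * (![0, 1, 0] : Fin 3 → ℤ) c))).eval T =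
      D * T ^ (D - 1) := by
    rw [hsp, derivative_sub, derivative_C, sub_zero, derivative_X_pow]
    simp
  refine ⟨isCoprime_one_right, one_ne_zero, ha, by simp, ?_, ?_, ?_, ?_, ?_⟩
  · nlinarith
  · rw [hsp]
    simp [hT]
  · rw [hder]
    exact mul_ne_zero (by exact_mod_cast hD.ne_zero) (pow_ne_zero _ hT0)
  · rw [hder]
    push_cast
    rw [abs_mul, abs_pow, abs_of_nonneg (by positivity : (0 : ℝ) ≤ D)]
    exact mul_le_mul_of_nonneg_left hTle' (by positivity)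
  · have h1 : (g.map (Int.castRingHom ℚ)).eval (a : ℚ) = ((g.eval a : ℤ) : ℚ) := by
      rw [eval_intCast_map]
      rfl
    simp only [Int.cast_one, div_one, one_pow, Polynomial.map_sub, Polynomial.map_pow, map_X,
      map_C, coe_evalRingHom, eval_sub, eval_pow, eval_X, eval_C, h1, hT]
    push_cast
    ring

/-- From `curve_bound` with `m = d + 1`, degree `D`, `e = D`, `M = D (d + 1)`, for
`f = X^D - C Ĝ`, `Ĝ = ∑ g_i x₀^i x₁^(D (d + 1) - i)` (a form of degree `D (d + 1)`),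
`u = (1, 0, 0)`, `v = (0, 1, 0)`, `α = u`, `β = 1`, `V = 1`, `h = X^D - C g` over `ℚ[X]`,
irreducible by `X_pow_sub_C_irreducible_of_prime` (Kummer; over the field `ℚ(X)` with Gauss'
lemma, or prove irreducibility over `ℚ[X]` via `Polynomial.Monic.irreducible_iff_...` and integral
closedness: a `D`-th root of `g` in `ℚ(X)` is in `ℚ[X]`), derivative `D τ^(D-1)`, sizes
`|τ| ≤ W`, `|D τ^(D - 1)| ≤ D W ≤ W'` with `W' = D W`, `log W' ≤ (1 + log D) log W`. -/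
theorem curve_one (D d : ℕ) (hD : D.Prime) : ∃ (c : ℕ) (C : ℝ), 0 < C ∧ ∀ g : ℤ[X],
    g.natDegree ≤ d → (∀ q : ℚ[X], g.map (Int.castRingHom ℚ) ≠ q ^ D) →
    ∀ U W : ℝ, 1 ≤ U → U ≤ W → 3 ≤ W → (∀ u : ℤ, |(u : ℝ)| ≤ U → |((g.eval u : ℤ) : ℝ)| ≤ W) →
    ({u : ℤ | |(u : ℝ)| ≤ U ∧ g.eval u ≠ 0 ∧ ∃ T : ℤ, g.eval u = T ^ D}.ncard : ℝ) ≤
      C * U ^ (1 / (D : ℝ)) * (log W) ^ c := by
  obtain ⟨c, C', hC', hcurve⟩ := curve_bound (d + 1) D D (D * (d + 1)) (by omega) hD.one_le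
  have hD1 : (1 : ℝ) ≤ D := by exact_mod_cast hD.one_le
  have hlD : 0 ≤ log (D : ℝ) := Real.log_nonneg hD1
  refine ⟨c, C' * (1 + log D) ^ c, by positivity, ?_⟩
  intro g hg hgp U W hU hUW hW hbound
  have hW0 : 0 < W := by linarith
  set f : (MvPolynomial (Fin 3) ℤ)[X] := X ^ D - C (CurveOneG ((d + 1) * D) d g) with hf
  set h : ℚ[X][X] := X ^ D - C (g.map (Int.castRingHom ℚ)) with hh
  have hle : d ≤ (d + 1) * D := by
    have := hD.one_le
    nlinarith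
  have hdeg : h.natDegree = D := by rw [hh, natDegree_sub_C, natDegree_X_pow]
  have hcoeff : ∀ i, (h.coeff i).natDegree ≤ D * (d + 1) := by
    intro i
    rw [hh, coeff_sub, coeff_X_pow, coeff_C]
    refine (natDegree_sub_le _ _).trans (max_le ?_ ?_)
    · split_ifs <;> simp
    · split_ifs
      · refine natDegree_map_le.trans (hg.trans ?_)
        rw [mul_comm]
        exact hle
      · simp
  have hDW : W ≤ D * W := by nlinarith
  have h1 := hcurve f (CurveOne_wmonic hD.pos (CurveOneG_hom hle g)) ![1, 0, 0] ![0, 1, 0] h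
    (monic_X_pow_sub_C _ hD.ne_zero) hdeg (CurveOne_irr hD _ hgp) hcoeff U 1 (D * W) hU le_rfl
    (hUW.trans hDW) (by linarith) (hW.trans hDW)
  have h2 : {u : ℤ | |(u : ℝ)| ≤ U ∧ g.eval u ≠ 0 ∧ ∃ T : ℤ, g.eval u = T ^ D}.ncard ≤
      {q : ℤ × ℤ | ∃ τ : ℤ, IsPt (d + 1) f ![1, 0, 0] ![0, 1, 0] h U 1 (D * W) q.1 q.2 τ}.ncard := by
    refine Set.ncard_le_ncard_of_injOn (fun u : ℤ => (u, (1 : ℤ))) ?_ ?_
      (CurveOne_finite _ _ _ _ _ _ _ _)
    · rintro u ⟨hu, h0, T, hT⟩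
      exact ⟨T, CurveOne_pt D d hD g hg hu h0 hT (hbound u hu)⟩
    · intro a _ b _ hab
      exact (Prod.ext_iff.1 hab).1
  have h3 : ({u : ℤ | |(u : ℝ)| ≤ U ∧ g.eval u ≠ 0 ∧ ∃ T : ℤ, g.eval u = T ^ D}.ncard : ℝ) ≤
      ({q : ℤ × ℤ | ∃ τ : ℤ, IsPt (d + 1) f ![1, 0, 0] ![0, 1, 0] h U 1 (D * W) q.1 q.2
        τ}.ncard : ℝ) := by exact_mod_cast h2
  refine (h3.trans h1).trans ?_
  rw [mul_one]
  have hlW : 1 ≤ log W := by
    rw [Real.le_log_iff_exp_le hW0]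
    have := Real.exp_one_lt_d9
    linarith
  have h4 : log (D * W) ≤ (1 + log D) * log W := by
    rw [Real.log_mul (by positivity) hW0.ne']
    nlinarith
  have h5 : 0 ≤ log (D * W) := Real.log_nonneg (by nlinarith)
  have h6 : (log (D * W)) ^ c ≤ ((1 + log D) * log W) ^ c := pow_le_pow_left₀ h5 h4 c
  have h7 : 0 ≤ C' * U ^ (1 / (D : ℝ)) := mul_nonneg hC'.le (Real.rpow_nonneg (by linarith) _)
  calc C' * U ^ (1 / (D : ℝ)) * (log (D * W)) ^ c
      ≤ C' * U ^ (1 / (D : ℝ)) * ((1 + log D) * log W) ^ c := mul_le_mul_of_nonneg_left h6 h7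
    _ = C' * (1 + log D) ^ c * U ^ (1 / (D : ℝ)) * (log W) ^ c := by
        rw [mul_pow]
        ring

end Pool.MP_aab329_nt.SerreC
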