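import Pool.Agent.Lib.MP_aab329_nt.C.Fib

/-!
Exceptional fibres: where a polynomial becomes a constant times a `D`-th power.
-/

set_option autoImplicit false

namespace Pool.MP_aab329_nt.SerreC

open Polynomial

/-- Clearing denominators. -/
private lemma exc_clear {σ : Type*} (p : MvPolynomial σ ℚ) : ∃ M : ℤ, M ≠ 0 ∧
    ∃ E : MvPolynomial σ ℤ, MvPolynomial.map (Int.castRingHom ℚ) E
      = MvPolynomial.C (M : ℚ) * p := by
  induction p using MvPolynomial.induction_on with
  | C a =>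
    refine ⟨a.den, by exact_mod_cast a.den_nz, MvPolynomial.C a.num, ?_⟩
    rw [MvPolynomial.map_C, ← MvPolynomial.C_mul]
    congr 1
    have h1 := Rat.mul_den_eq_num a
    push_cast
    rw [eq_intCast, ← h1]
    ring
  | add p q hp hq =>
    obtain ⟨M₁, h1, E₁, e1⟩ := hp
    obtain ⟨M₂, h2, E₂, e2⟩ := hq
    refine ⟨M₁ * M₂, mul_ne_zero h1 h2, MvPolynomial.C M₂ * E₁ + MvPolynomial.C M₁ * E₂, ?_⟩
    rw [map_add, map_mul, map_mul, e1, e2, MvPolynomial.map_C, MvPolynomial.map_C]
    push_cast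
    rw [eq_intCast, eq_intCast, MvPolynomial.C_mul]
    ring
  | mul_X p i hp =>
    obtain ⟨M₁, h1, E₁, e1⟩ := hp
    refine ⟨M₁, h1, E₁ * MvPolynomial.X i, ?_⟩
    rw [map_mul, e1, MvPolynomial.map_X, mul_assoc]

private lemma exc_equiv_map {n : ℕ} (F : MvPolynomial (Fin (n + 1)) ℤ) :
    MvPolynomial.finSuccEquiv ℚ n (MvPolynomial.map (Int.castRingHom ℚ) F)
      = (MvPolynomial.finSuccEquiv ℤ n F).map (MvPolynomial.map (Int.castRingHom ℚ)) := by
  induction F using MvPolynomial.induction_on with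
  | C a => simp [MvPolynomial.finSuccEquiv_apply]
  | add p q hp hq => rw [map_add, map_add, map_add, hp, hq, Polynomial.map_add]
  | mul_X p i hp =>
    rw [map_mul, map_mul, map_mul, hp, Polynomial.map_mul, MvPolynomial.map_X]
    congr 1
    refine Fin.cases ?_ (fun j => ?_) i
    · rw [MvPolynomial.finSuccEquiv_X_zero, MvPolynomial.finSuccEquiv_X_zero, Polynomial.map_X]
    · rw [MvPolynomial.finSuccEquiv_X_succ, MvPolynomial.finSuccEquiv_X_succ, Polynomial.map_C,
        MvPolynomial.map_X]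

/-- A sum `∑ a^i b^(D-1-i)` for monic `a`, `b` of degree `k` has degree `k (D - 1)`. -/
private lemma exc_geom (D k : ℕ) (hD : 2 ≤ D) (a b : ℚ[X]) (ha : a.Monic) (hb : b.Monic)
    (hak : a.natDegree = k) (hbk : b.natDegree = k) :
    (∑ i ∈ Finset.range D, a ^ i * b ^ (D - 1 - i)).coeff (k * D - k) ≠ 0 := by
  rw [Polynomial.finset_sum_coeff]
  have h1 : ∀ i ∈ Finset.range D, (a ^ i * b ^ (D - 1 - i)).coeff (k * D - k) = 1 := by
    intro i hi
    rw [Finset.mem_range] at hi
    have hm : (a ^ i * b ^ (D - 1 - i)).Monic := (ha.pow i).mul (hb.pow _)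
    have hd : (a ^ i * b ^ (D - 1 - i)).natDegree = k * D - k := by
      rw [(ha.pow i).natDegree_mul (hb.pow _), ha.natDegree_pow, hb.natDegree_pow, hak, hbk,
        ← Nat.add_mul, show i + (D - 1 - i) = D - 1 by omega, Nat.sub_mul, Nat.one_mul,
        Nat.mul_comm]
    rw [← hd]
    exact hm.coeff_natDegree
  rw [Finset.sum_congr rfl h1, Finset.sum_const, Finset.card_range, nsmul_eq_mul, mul_one]
  exact_mod_cast (by omega : D ≠ 0)

/-- The univariate contradiction. -/
private lemma exc_uni (D k : ℕ) (hD : 2 ≤ D) (g q r : ℚ[X]) (hg : g.Monic)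
    (hgd : g.natDegree = k * D) (hq : q.Monic) (hqd : q.natDegree = k) (he : g = q ^ D + r)
    (hr : r ≠ 0) (hrd : r.degree < ((k * D - k : ℕ) : WithBot ℕ)) (c : ℚ) (q₁ : ℚ[X])
    (h : g = C c * q₁ ^ D) : False := by
  have hD0 : D ≠ 0 := by omega
  have hc : c ≠ 0 := by
    rintro rfl
    rw [C_0, zero_mul] at h
    exact hg.ne_zero h
  have hq1 : q₁ ≠ 0 := by
    rintro rfl
    rw [zero_pow hD0, mul_zero] at h
    exact hg.ne_zero h
  have hl : q₁.leadingCoeff ≠ 0 := leadingCoeff_ne_zero.2 hq1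
  have hlc : c * q₁.leadingCoeff ^ D = 1 := by
    have h1 := hg.leadingCoeff
    rw [h, leadingCoeff_mul, leadingCoeff_C, leadingCoeff_pow] at h1
    exact h1
  set q₂ := C (q₁.leadingCoeff)⁻¹ * q₁ with hq2
  have hm2 : q₂.Monic := by
    rw [Monic, hq2, leadingCoeff_mul, leadingCoeff_C, inv_mul_cancel₀ hl]
  have hg2 : g = q₂ ^ D := by
    rw [h, hq2, mul_pow, ← C_pow]
    congr 2
    rw [inv_pow]
    exact eq_inv_of_mul_eq_one_left hlc
  have hd2 : q₂.natDegree = k := by
    have h1 : q₂.natDegree * D = k * D := by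
      rw [← hgd, hg2, hm2.natDegree_pow, Nat.mul_comm]
    exact Nat.eq_of_mul_eq_mul_right (by omega) h1
  have hS := exc_geom D k hD q₂ q hm2 hq hd2 hqd
  have hfac := (Commute.all q₂ q).geom_sum₂_mul D
  have hrr : r = q₂ ^ D - q ^ D := by
    rw [← hg2, he]
    ring
  rw [← hrr] at hfac
  set S := ∑ i ∈ Finset.range D, q₂ ^ i * q ^ (D - 1 - i) with hSdef
  have hsub : q₂ - q ≠ 0 := by
    intro h0
    rw [h0, mul_zero] at hfac
    exact hr hfac.symm
  have h3 : ((k * D - k : ℕ) : WithBot ℕ) ≤ S.degree := le_degree_of_ne_zero hS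
  have h4 : S.degree ≤ r.degree := by
    rw [← hfac]
    exact degree_le_mul_left S hsub
  exact absurd (h3.trans h4) (not_le.2 hrd)

/-- If `D ∤ d` take `E = 1` (degrees). If `d = k D`: let `g = F / c₀` over `ℚ[v]`,
`g = q^D + r` (`exists_root` with `A = ℚ[v]`); `r ≠ 0` since `F` is not a constant times a `D`-th
power; `E` = a multiple in `ℤ[v]` of a nonzero coefficient of `r`. If `E(v) ≠ 0` and
`F(·, v) = c q₁^D`, then (normalise) `g(·, v) = q₂^D` with `q₂` monic of degree `k`, so
`r(·, v) = q₂^D - q(·, v)^D = (q₂ - q) ∑ q₂^i q^(D - 1 - i)`, where the sum has degree exactly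
`k (D - 1)` (leading coefficient `D`), a contradiction to `deg r < k (D - 1)`, `r(·, v) ≠ 0`.
(For `k = 0` one has `d = 0` and `F` is a constant, excluded by `hns`.) -/
theorem exists_exc {n : ℕ} (D : ℕ) (hD : 2 ≤ D) (F : MvPolynomial (Fin (n + 1)) ℤ) (d : ℕ)
    (c₀ : ℤ) (hF : Lead F d c₀)
    (hns : ∀ (c : ℚ) (Q : MvPolynomial (Fin (n + 1)) ℚ),
      MvPolynomial.map (Int.castRingHom ℚ) F ≠ MvPolynomial.C c * Q ^ D) :
    ∃ E : MvPolynomial (Fin n) ℤ, E ≠ 0 ∧ ∀ v : Fin n → ℤ, MvPolynomial.eval v E ≠ 0 →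
      NPow D (fib F v) := by
  have hc₀ : (c₀ : ℚ) ≠ 0 := by exact_mod_cast hF.ne
  by_cases hdvd : D ∣ d
  swap
  · refine ⟨1, one_ne_zero, fun v _ c q h => hdvd ?_⟩
    obtain ⟨hdeg, hco⟩ := fib_deg hF v
    have hinj : Function.Injective (Int.castRingHom ℚ) := Int.cast_injective
    have h1 : ((fib F v).map (Int.castRingHom ℚ)).natDegree = d := by
      rw [Polynomial.natDegree_map_eq_of_injective hinj, hdeg]
    have h2 : (fib F v).map (Int.castRingHom ℚ) ≠ 0 := by
      intro h0
      have h3 : ((fib F v).map (Int.castRingHom ℚ)).coeff d = 0 := by rw [h0, coeff_zero]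
      rw [coeff_map, hco] at h3
      exact hc₀ h3
    have hc : c ≠ 0 := by
      rintro rfl
      rw [C_0, zero_mul] at h
      exact h2 h
    rw [h, natDegree_C_mul hc, natDegree_pow] at h1
    exact ⟨q.natDegree, h1.symm⟩
  · obtain ⟨k, hk⟩ := hdvd
    have hdk : d = k * D := by rw [hk, Nat.mul_comm]
    set A := MvPolynomial (Fin n) ℚ with hA
    set P := MvPolynomial.finSuccEquiv ℤ n F with hP
    set φ : MvPolynomial (Fin n) ℤ →+* A := MvPolynomial.map (Int.castRingHom ℚ) with hφ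
    have hφinj : Function.Injective φ :=
      MvPolynomial.map_injective _ (show Function.Injective (Int.castRingHom ℚ) from
        Int.cast_injective)
    set P' := P.map φ with hP'
    have hP'd : P'.natDegree = d := by
      rw [hP', Polynomial.natDegree_map_eq_of_injective hφinj, hF.deg]
    have hP'c : P'.coeff d = MvPolynomial.C (c₀ : ℚ) := by
      rw [hP', coeff_map, hF.lc, hφ, MvPolynomial.map_C]
      rfl
    set g : A[X] := C (MvPolynomial.C (c₀ : ℚ)⁻¹) * P' with hg
    have hCinv : (MvPolynomial.C (c₀ : ℚ)⁻¹ : A) ≠ 0 := by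
      rw [Ne, MvPolynomial.C_eq_zero]
      exact inv_ne_zero hc₀
    have hgd : g.natDegree = k * D := by
      rw [hg, natDegree_C_mul hCinv, hP'd, hdk]
    have hgm : g.Monic := by
      rw [Monic, leadingCoeff, hgd, ← hdk, hg, coeff_C_mul, hP'c, ← MvPolynomial.C_mul,
        inv_mul_cancel₀ hc₀, MvPolynomial.C_1]
    obtain ⟨q, r, hqm, hqd, hgqr, hrd⟩ := exists_root D k hD g hgm hgd
    have hPg : P' = C (MvPolynomial.C (c₀ : ℚ)) * g := by
      rw [hg, ← mul_assoc, ← C_mul, ← MvPolynomial.C_mul, mul_inv_cancel₀ hc₀, MvPolynomial.C_1,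
        C_1, one_mul]
    have hr : r ≠ 0 := by
      rintro rfl
      rw [add_zero] at hgqr
      apply hns c₀ ((MvPolynomial.finSuccEquiv ℚ n).symm q)
      apply (MvPolynomial.finSuccEquiv ℚ n).injective
      rw [exc_equiv_map, map_mul, map_pow, AlgEquiv.apply_symm_apply]
      have h1 : MvPolynomial.finSuccEquiv ℚ n (MvPolynomial.C (c₀ : ℚ))
          = C (MvPolynomial.C (c₀ : ℚ)) := by
        simp
      rw [h1, ← hgqr]
      exact hPg
    obtain ⟨j, hj⟩ : ∃ j, r.coeff j ≠ 0 := by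
      by_contra hcon
      push Not at hcon
      exact hr (Polynomial.ext fun j => by rw [hcon j, coeff_zero])
    obtain ⟨M, hM, E, hE⟩ := exc_clear (r.coeff j)
    have hMQ : (M : ℚ) ≠ 0 := by exact_mod_cast hM
    refine ⟨E, ?_, ?_⟩
    · rintro rfl
      rw [map_zero] at hE
      have h1 : (MvPolynomial.C (M : ℚ) : MvPolynomial (Fin n) ℚ) ≠ 0 := by
        rw [Ne, MvPolynomial.C_eq_zero]
        exact hMQ
      exact (mul_ne_zero h1 hj) hE.symm
    · intro v hv c q₁ hcq
      set v' : Fin n → ℚ := fun i => (v i : ℚ) with hv'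
      set ψ : A →+* ℚ := MvPolynomial.eval v' with hψ
      have hcomp : (Int.castRingHom ℚ).comp (MvPolynomial.eval v) = ψ.comp φ := by
        apply MvPolynomial.ringHom_ext
        · intro a
          simp [hψ, hφ]
        · intro i
          rw [RingHom.comp_apply, RingHom.comp_apply, MvPolynomial.eval_X, hφ,
            MvPolynomial.map_X, hψ, MvPolynomial.eval_X]
          rfl
      have hfib : (fib F v).map (Int.castRingHom ℚ) = P'.map ψ := by
        rw [fib, Polynomial.map_map, hcomp, hP', Polynomial.map_map]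
      have hrv : ψ (r.coeff j) ≠ 0 := by
        intro h0
        have h1 := congrArg ψ hE
        rw [map_mul, h0, mul_zero] at h1
        have h2 : ψ (φ E) = (Int.castRingHom ℚ) (MvPolynomial.eval v E) := by
          rw [← RingHom.comp_apply, ← hcomp, RingHom.comp_apply]
        have h3 : ψ (φ E) = 0 := h1
        rw [h2] at h3
        apply hv
        have h4 : ((MvPolynomial.eval v E : ℤ) : ℚ) = 0 := h3
        exact_mod_cast h4
      have hgm' : (g.map ψ).Monic := hgm.map ψ
      have hgd' : (g.map ψ).natDegree = k * D := by rw [hgm.natDegree_map, hgd]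
      have hr' : r.map ψ ≠ 0 := by
        intro h0
        apply hrv
        rw [← coeff_map, h0, coeff_zero]
      refine exc_uni D k hD (g.map ψ) (q.map ψ) (r.map ψ) hgm' hgd' (hqm.map ψ)
        (by rw [hqm.natDegree_map, hqd]) ?_ hr' (lt_of_le_of_lt (degree_map_le) hrd)
        ((c₀ : ℚ)⁻¹ * c) q₁ ?_
      · rw [hgqr, Polynomial.map_add, Polynomial.map_pow]
      · rw [hg, Polynomial.map_mul, Polynomial.map_C, ← hfib, hcq, ← mul_assoc, ← C_mul]
        congr 3
        rw [hψ, MvPolynomial.eval_C]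

end Pool.MP_aab329_nt.SerreC
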