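import Pool.Agent.Lib.MP_aab329_nt.C.Slice

/-!
Fibres of a polynomial with constant leading coefficient; polynomial `D`-th roots.
-/

set_option autoImplicit false

namespace Pool.MP_aab329_nt.SerreC

open Polynomial

/-- `F` has degree `d` in the first variable, with constant leading coefficient `c₀ ≠ 0`. -/
structure Lead {n : ℕ} (F : MvPolynomial (Fin (n + 1)) ℤ) (d : ℕ) (c₀ : ℤ) : Prop where
  deg : (MvPolynomial.finSuccEquiv ℤ n F).natDegree = d
  lc : (MvPolynomial.finSuccEquiv ℤ n F).coeff d = MvPolynomial.C c₀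
  ne : c₀ ≠ 0

/-- The polynomial `F(·, v)`. -/
noncomputable def fib {n : ℕ} (F : MvPolynomial (Fin (n + 1)) ℤ) (v : Fin n → ℤ) : ℤ[X] :=
  (MvPolynomial.finSuccEquiv ℤ n F).map (MvPolynomial.eval v)

theorem fib_eval {n : ℕ} (F : MvPolynomial (Fin (n + 1)) ℤ) (v : Fin n → ℤ) (t : ℤ) :
    (fib F v).eval t = MvPolynomial.eval (Fin.cons t v : Fin (n + 1) → ℤ) F := by
  unfold fib
  rw [MvPolynomial.eval_eq_eval_mv_eval']

theorem fib_deg {n : ℕ} {F : MvPolynomial (Fin (n + 1)) ℤ} {d : ℕ} {c₀ : ℤ} (h : Lead F d c₀)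
    (v : Fin n → ℤ) : (fib F v).natDegree = d ∧ (fib F v).coeff d = c₀ := by
  have h1 : (fib F v).coeff d = c₀ := by
    unfold fib
    rw [coeff_map, h.lc, MvPolynomial.eval_C]
  refine ⟨le_antisymm ?_ ?_, h1⟩
  · unfold fib
    exact natDegree_map_le.trans h.deg.le
  · apply le_natDegree_of_ne_zero
    rw [h1]
    exact h.ne

/-- Polynomial `D`-th root: over a commutative `ℚ`-algebra a monic `g` of degree `k D` is
`q^D + r` with `q` monic of degree `k` and `r` of degree `< k D - k` (descending recursion on the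
degree of `g - q^D`: add `c / D X^(k - j - 1)` to `q`). -/
theorem exists_root {A : Type*} [CommRing A] [Algebra ℚ A] [Nontrivial A] (D k : ℕ) (hD : 2 ≤ D)
    (g : A[X]) (hg : g.Monic) (hd : g.natDegree = k * D) :
    ∃ q r : A[X], q.Monic ∧ q.natDegree = k ∧ g = q ^ D + r ∧ r.degree < ((k * D - k : ℕ) : WithBot ℕ) := by
  have hD0 : (D : ℚ) ≠ 0 := by
    have : D ≠ 0 := by omega
    exact_mod_cast this
  have key : ∀ j : ℕ, j ≤ k → ∃ q : A[X], q.Monic ∧ q.natDegree = k ∧
      (g - q ^ D).degree < ((k * D - j : ℕ) : WithBot ℕ) := by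
    intro j
    induction j with
    | zero =>
      intro _
      refine ⟨X ^ k, monic_X_pow k, natDegree_X_pow k, ?_⟩
      have hm : ((X : A[X]) ^ k) ^ D = X ^ (k * D) := by rw [pow_mul]
      have h1 : g.degree = ((X : A[X]) ^ (k * D)).degree := by
        rw [degree_X_pow, degree_eq_natDegree hg.ne_zero, hd]
      have h2 := degree_sub_lt h1 hg.ne_zero (by rw [hg.leadingCoeff, (monic_X_pow (k * D)).leadingCoeff])
      rw [hm, Nat.sub_zero]
      refine h2.trans_eq ?_
      rw [h1, degree_X_pow]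
    | succ j ih =>
      intro hj
      obtain ⟨q, hq, hqk, hdeg⟩ := ih (by omega)
      obtain ⟨a, ha⟩ : ∃ a : A, (D : A) * a = (g - q ^ D).coeff (k * D - (j + 1)) := by
        refine ⟨((1 / D : ℚ)) • (g - q ^ D).coeff (k * D - (j + 1)), ?_⟩
        have h1 : (D : A) = algebraMap ℚ A (D : ℚ) := by simp
        rw [Algebra.smul_def, h1, ← mul_assoc, ← map_mul, mul_one_div_cancel hD0, map_one, one_mul]
      obtain ⟨e, he⟩ : ∃ e : A[X], e = C a * X ^ (k - j - 1) := ⟨_, rfl⟩
      have hedeg : e.degree < (k : WithBot ℕ) := by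
        rw [he]
        refine (degree_C_mul_X_pow_le _ _).trans_lt ?_
        exact_mod_cast (by omega : k - j - 1 < k)
      have hqdeg : q.degree = (k : WithBot ℕ) := by
        rw [degree_eq_natDegree hq.ne_zero, hqk]
      have hlt : e.degree < q.degree := by rw [hqdeg]; exact hedeg
      have hq' : (q + e).Monic := hq.add_of_left hlt
      have hqk' : (q + e).natDegree = k := by
        rw [natDegree_add_eq_left_of_degree_lt hlt, hqk]
      refine ⟨q + e, hq', hqk', ?_⟩
      obtain ⟨S, hS⟩ : ∃ S : A[X], S = ∑ i ∈ Finset.range D, (q + e) ^ i * q ^ (D - 1 - i) := ⟨_, rfl⟩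
      have hgeom : (q + e) ^ D - q ^ D = e * S := by
        have h1 := (Commute.all (q + e) q).mul_geom_sum₂ D
        rw [add_sub_cancel_left] at h1
        rw [hS, h1]
      have hterm : ∀ i ∈ Finset.range D, ((q + e) ^ i * q ^ (D - 1 - i)).Monic ∧
          ((q + e) ^ i * q ^ (D - 1 - i)).natDegree = k * (D - 1) := by
        intro i hi
        rw [Finset.mem_range] at hi
        refine ⟨(hq'.pow i).mul (hq.pow _), ?_⟩
        rw [(hq'.pow i).natDegree_mul (hq.pow _), hq'.natDegree_pow, hq.natDegree_pow, hqk, hqk', ← add_mul]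
        have : i + (D - 1 - i) = D - 1 := by omega
        rw [this, mul_comm]
      have hStop : S.coeff (k * (D - 1)) = (D : A) := by
        rw [hS, finset_sum_coeff]
        rw [Finset.sum_congr rfl fun i hi => ?_, Finset.sum_const, Finset.card_range, nsmul_eq_mul, mul_one]
        obtain ⟨h1, h2⟩ := hterm i hi
        rw [← h2]
        exact h1.coeff_natDegree
      have hSbig : ∀ m : ℕ, k * (D - 1) < m → S.coeff m = 0 := by
        intro m hm
        rw [hS, finset_sum_coeff]
        refine Finset.sum_eq_zero fun i hi => ?_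
        obtain ⟨h1, h2⟩ := hterm i hi
        exact coeff_eq_zero_of_natDegree_lt (by rw [h2]; exact hm)
      have hexp : g - (q + e) ^ D = (g - q ^ D) - e * S := by
        rw [← hgeom]
        ring
      have hkD : k * D = k * (D - 1) + k := by
        obtain ⟨D', rfl⟩ : ∃ D', D = D' + 1 := ⟨D - 1, by omega⟩
        rw [Nat.add_sub_cancel]
        ring
      rw [degree_lt_iff_coeff_zero] at hdeg ⊢
      intro m hm
      rw [hexp, coeff_sub, he, mul_assoc, coeff_C_mul, coeff_X_pow_mul']
      have hm1 : k - j - 1 ≤ m := by omega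
      rw [if_pos hm1]
      rcases Nat.eq_or_lt_of_le hm with h1 | h1
      · have h2 : m - (k - j - 1) = k * (D - 1) := by omega
        rw [h2, hStop, ← h1, mul_comm a, ha, sub_self]
      · rw [hdeg m (by omega), hSbig _ (by omega), mul_zero, sub_zero]
  obtain ⟨q, hq, hqk, hdeg⟩ := key k le_rfl
  exact ⟨q, g - q ^ D, hq, hqk, by ring, hdeg⟩

end Pool.MP_aab329_nt.SerreC
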