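import Pool.Agent.Lib.MP_aab329_nt.C.Fib
import Pool.Agent.Lib.MP_aab329_nt.Q.MultiVar

/-!
The fibres in the count for `f(v) G(s, v)`.
-/

set_option autoImplicit false

namespace Pool.MP_aab329_nt.SerreC

open Finset Real Pool.MP_aab329_nt.SerreQ

private theorem Fibres_box {m N : ℕ} {v : Fin m → ℤ} (hv : v ∈ boxn m N) (t : ℤ)
    (ht : |t| ≤ 3 * (N : ℤ)) : (Fin.cons t v : Fin (m + 1) → ℤ) ∈ boxn (m + 1) (3 * N) := by
  unfold boxn at hv ⊢
  rw [Fintype.mem_piFinset] at hv ⊢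
  intro i
  refine Fin.cases ?_ (fun j => ?_) i
  · rw [Fin.cons_zero, Finset.mem_Icc]
    push_cast
    exact abs_le.1 ht
  · rw [Fin.cons_succ, Finset.mem_Icc]
    have h := Finset.mem_Icc.1 (hv j)
    push_cast
    constructor
    · linarith [h.1, (Int.natCast_nonneg N)]
    · linarith [h.2, (Int.natCast_nonneg N)]

/-- Growth of the fibres. -/
private theorem Fibres_growth {m : ℕ} (F : MvPolynomial (Fin (m + 1)) ℤ) : ∃ (E : ℕ) (C : ℝ), 1 ≤ C ∧
    ∀ N : ℕ, 1 ≤ N → ∀ v ∈ boxn m N, ∀ t : ℤ, |t| ≤ 3 * (N : ℤ) →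
      |(((fib F v).eval t : ℤ) : ℝ)| ≤ C * (N : ℝ) ^ E := by
  obtain ⟨E, C, hC, h⟩ := eval_le F
  refine ⟨E, C * 3 ^ E, ?_, fun N hN v hv t ht => ?_⟩
  · have : (1 : ℝ) ≤ 3 ^ E := one_le_pow₀ (by norm_num)
    nlinarith
  · rw [fib_eval]
    have h1 := h (3 * N) (by omega) _ (Fibres_box hv t ht)
    push_cast at h1
    rw [mul_pow] at h1
    linarith

private theorem Fibres_mono {C C' : ℝ} {N E E' : ℕ} (hN : 1 ≤ N) (hC0 : 0 ≤ C) (hC : C ≤ C') (hE : E ≤ E') :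
    C * (N : ℝ) ^ E ≤ C' * (N : ℝ) ^ E' := by
  have hN1 : (1 : ℝ) ≤ N := by exact_mod_cast hN
  have h1 : (N : ℝ) ^ E ≤ (N : ℝ) ^ E' := pow_le_pow_right₀ hN1 hE
  exact mul_le_mul hC h1 (by positivity) (hC0.trans hC)

/-- Fibre over `v`: number of `s`. From `slice` with `a = f(v)`, `h = fib G v`, `eval_le`. -/
theorem fibre_s {m : ℕ} (D : ℕ) (hD : D.Prime) (f : MvPolynomial (Fin (m + 1)) ℤ)
    (G : MvPolynomial (Fin (m + 2)) ℤ) (d : ℕ) (c₀ : ℤ) (hG : Lead G d c₀) :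
    ∃ (K c : ℕ) (C : ℝ), 0 < C ∧ ∀ N : ℕ, 3 ≤ N → ∀ v ∈ boxn (m + 1) N,
      MvPolynomial.eval v f ≠ 0 → NPow D (fib G v) →
      ({s : ℤ | |s| ≤ N ∧ (fib G v).eval s ≠ 0 ∧
        ∃ T : ℤ, MvPolynomial.eval v f * (fib G v).eval s = T ^ D}.ncard : ℝ) ≤
      C * (tau (rk D (MvPolynomial.eval v f)) : ℝ) ^ K *
        (((N : ℝ) / rk D (MvPolynomial.eval v f)) ^ (1 / (D : ℝ)) + 1) * (log N) ^ c := by
  obtain ⟨E₁, C₁, hC₁, h₁⟩ := eval_le f
  obtain ⟨E₂, C₂, hC₂, h₂⟩ := Fibres_growth G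
  obtain ⟨K, c, C, hC, h⟩ := slice D d (max E₁ E₂) c₀ (max C₁ C₂) hD hG.ne (hC₁.trans (le_max_left _ _))
  refine ⟨K, c, C, hC, fun N hN v hv hfv hNP => ?_⟩
  obtain ⟨hd, hc⟩ := fib_deg hG v
  refine h (fib G v) hd hc hNP (MvPolynomial.eval v f) hfv N hN ?_ ?_
  · exact (h₁ N (by omega) v hv).trans
      (Fibres_mono (by omega) (by linarith) (le_max_left _ _) (le_max_left _ _))
  · intro x hx
    exact (h₂ N (by omega) v hv x hx).trans
      (Fibres_mono (by omega) (by linarith) (le_max_right _ _) (le_max_right _ _))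

/-- Number of `v` with a given `D`-free part `e`: fix `v'' = (v₁, …)` and apply `slice` with
`a = e^(D-1)` (`rk_pow`; `e^(D-1) f(v) = (e z)^D`), `h = fib f v''`. -/
theorem fibre_v {m : ℕ} (D : ℕ) (hD : D.Prime) (f : MvPolynomial (Fin (m + 1)) ℤ) (d : ℕ)
    (c₀ : ℤ) (hf : Lead f d c₀) (E₀ : MvPolynomial (Fin m) ℤ)
    (hE : ∀ v'' : Fin m → ℤ, MvPolynomial.eval v'' E₀ ≠ 0 → NPow D (fib f v'')) :
    ∃ (K c : ℕ) (C : ℝ), 0 < C ∧ ∀ N : ℕ, 3 ≤ N → ∀ e : ℤ, e ≠ 0 → |e| ≤ (N : ℤ) ^ D →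
      rk D e ≤ N →
      ({v : Fin (m + 1) → ℤ | v ∈ boxn (m + 1) N ∧ MvPolynomial.eval (Fin.tail v) E₀ ≠ 0 ∧
        MvPolynomial.eval v f ≠ 0 ∧ ∃ z : ℤ, MvPolynomial.eval v f = e * z ^ D}.ncard : ℝ) ≤
      C * (N : ℝ) ^ m * (tau (rk D e) : ℝ) ^ K * ((N : ℝ) / rk D e) ^ (1 / (D : ℝ)) *
        (log N) ^ c := by
  classical
  obtain ⟨E₂, C₂, hC₂, h₂⟩ := Fibres_growth f
  obtain ⟨K, c, C, hC, h⟩ := slice D d (max (D * (D - 1)) E₂) c₀ C₂ hD hf.ne hC₂
  refine ⟨K, c, 3 ^ m * (2 * C), by positivity, fun N hN e he heN hrk => ?_⟩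
  have hN1 : (1 : ℝ) ≤ N := by exact_mod_cast (by omega : 1 ≤ N)
  have hN3 : (3 : ℝ) ≤ N := by exact_mod_cast hN
  have hlog : 0 ≤ log (N : ℝ) := Real.log_nonneg hN1
  have hr1 : (1 : ℝ) ≤ rk D e := by exact_mod_cast rk_pos D e
  have hrN : (rk D e : ℝ) ≤ N := by exact_mod_cast hrk
  have hX : 1 ≤ ((N : ℝ) / rk D e) ^ (1 / (D : ℝ)) := by
    refine Real.one_le_rpow ?_ (by positivity)
    rw [one_le_div (by linarith)]
    exact hrN
  obtain ⟨X, hXd⟩ : ∃ X : ℝ, X = ((N : ℝ) / rk D e) ^ (1 / (D : ℝ)) := ⟨_, rfl⟩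
  obtain ⟨B, hB⟩ : ∃ B : ℝ, B = C * (tau (rk D e) : ℝ) ^ K * (X + 1) * (log N) ^ c := ⟨_, rfl⟩
  have hX1 : 1 ≤ X := hXd ▸ hX
  have hB0 : 0 ≤ B := by
    rw [hB]
    have : 0 ≤ X + 1 := by linarith
    positivity
  have hsetfin : {v : Fin (m + 1) → ℤ | v ∈ boxn (m + 1) N ∧ MvPolynomial.eval (Fin.tail v) E₀ ≠ 0 ∧
        MvPolynomial.eval v f ≠ 0 ∧ ∃ z : ℤ, MvPolynomial.eval v f = e * z ^ D} =
      ((boxn (m + 1) N).filter (fun v => MvPolynomial.eval (Fin.tail v) E₀ ≠ 0 ∧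
        MvPolynomial.eval v f ≠ 0 ∧ ∃ z : ℤ, MvPolynomial.eval v f = e * z ^ D) : Finset (Fin (m + 1) → ℤ)) := by
    ext v
    rw [Finset.coe_filter]
  rw [hsetfin, Set.ncard_coe_finset]
  obtain ⟨S, hS⟩ : ∃ S : Finset (Fin (m + 1) → ℤ), S = (boxn (m + 1) N).filter
      (fun v => MvPolynomial.eval (Fin.tail v) E₀ ≠ 0 ∧
        MvPolynomial.eval v f ≠ 0 ∧ ∃ z : ℤ, MvPolynomial.eval v f = e * z ^ D) := ⟨_, rfl⟩
  rw [← hS]
  have hmaps : ∀ v ∈ S, Fin.tail v ∈ boxn m N := by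
    intro v hv
    rw [hS, mem_filter] at hv
    unfold boxn at hv ⊢
    rw [Fintype.mem_piFinset] at hv ⊢
    intro i
    exact hv.1 i.succ
  have hfib : ∀ w ∈ boxn m N, ((S.filter (fun v => Fin.tail v = w)).card : ℝ) ≤ B := by
    intro w hw
    by_cases hEw : MvPolynomial.eval w E₀ = 0
    · have : S.filter (fun v => Fin.tail v = w) = ∅ := by
        rw [filter_eq_empty_iff]
        intro v hv hvw
        rw [hS, mem_filter] at hv
        rw [hvw] at hv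
        exact hv.2.1 hEw
      rw [this, card_empty, Nat.cast_zero]
      exact hB0
    · obtain ⟨hd, hc⟩ := fib_deg hf w
      have hDpos : 1 ≤ D := hD.one_lt.le
      have hea : |(((e ^ (D - 1) : ℤ)) : ℝ)| ≤ C₂ * (N : ℝ) ^ (max (D * (D - 1)) E₂) := by
        have h1 : |(e : ℝ)| ≤ (N : ℝ) ^ D := by exact_mod_cast heN
        have h2 : |(((e ^ (D - 1) : ℤ)) : ℝ)| ≤ 1 * (N : ℝ) ^ (D * (D - 1)) := by
          push_cast
          rw [abs_pow, one_mul, pow_mul]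
          exact pow_le_pow_left₀ (abs_nonneg _) h1 _
        exact h2.trans (Fibres_mono (by omega) zero_le_one hC₂ (le_max_left _ _))
      have hsl := h (fib f w) hd hc (hE w hEw) (e ^ (D - 1)) (pow_ne_zero _ he) N hN hea
        (fun x hx => (h₂ N (by omega) w hw x hx).trans
          (Fibres_mono (by omega) (by linarith) le_rfl (le_max_right _ _)))
      rw [rk_pow D hD e he, ← hXd, ← hB] at hsl
      refine le_trans ?_ hsl
      have hfin : {x : ℤ | |x| ≤ N ∧ (fib f w).eval x ≠ 0 ∧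
          ∃ T : ℤ, e ^ (D - 1) * (fib f w).eval x = T ^ D}.Finite := by
        refine Set.Finite.subset (Finset.finite_toSet (Icc (-(N : ℤ)) N)) ?_
        intro x hx
        rw [Finset.mem_coe, Finset.mem_Icc]
        exact abs_le.1 hx.1
      have hinj : Set.InjOn (fun v : Fin (m + 1) → ℤ => v 0) (S.filter (fun v => Fin.tail v = w)) := by
        intro a ha b hb hab
        rw [Finset.mem_coe, mem_filter] at ha hb
        have h2 : Fin.tail a = Fin.tail b := ha.2.trans hb.2.symm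
        funext i
        refine Fin.cases hab (fun i => ?_) i
        exact congrFun h2 i
      have hcard : (S.filter (fun v => Fin.tail v = w)).card =
          (((S.filter (fun v => Fin.tail v = w)).image (fun v => v 0) : Finset ℤ) : Set ℤ).ncard := by
        rw [Set.ncard_coe_finset, card_image_of_injOn hinj]
      rw [hcard]
      refine Nat.cast_le.2 (Set.ncard_le_ncard ?_ hfin)
      intro x hx
      rw [Finset.mem_coe, mem_image] at hx
      obtain ⟨v, hv, rfl⟩ := hx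
      rw [mem_filter, hS, mem_filter] at hv
      obtain ⟨⟨hvb, -, hv0, z, hz⟩, hvw⟩ := hv
      have hcons : (Fin.cons (v 0) w : Fin (m + 1) → ℤ) = v := by
        rw [← hvw]
        exact Fin.cons_self_tail v
      have hev : (fib f w).eval (v 0) = MvPolynomial.eval v f := by
        rw [fib_eval, hcons]
      refine ⟨?_, ?_, e * z, ?_⟩
      · unfold boxn at hvb
        rw [Fintype.mem_piFinset] at hvb
        exact abs_le.2 (Finset.mem_Icc.1 (hvb 0))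
      · rw [hev]
        exact hv0
      · rw [hev, hz, mul_pow, ← mul_assoc, ← pow_succ, Nat.sub_add_cancel hDpos]
  have hsum := card_eq_sum_card_fiberwise (f := fun v : Fin (m + 1) → ℤ => Fin.tail v) (s := S)
    (t := boxn m N) hmaps
  have hboxc : ((boxn m N).card : ℝ) ≤ 3 ^ m * (N : ℝ) ^ m := by
    unfold boxn
    rw [Fintype.card_piFinset, Finset.prod_const, Finset.card_univ, Fintype.card_fin, Int.card_Icc]
    have e1 : ((N : ℤ) + 1 - -(N : ℤ)).toNat = 2 * N + 1 := by omega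
    rw [e1, ← mul_pow]
    push_cast
    exact pow_le_pow_left₀ (by positivity) (by linarith) m
  rw [hsum]
  push_cast
  calc ∑ w ∈ boxn m N, ((S.filter (fun v => Fin.tail v = w)).card : ℝ) ≤ ∑ w ∈ boxn m N, B :=
        sum_le_sum hfib
    _ = (boxn m N).card * B := by rw [sum_const, nsmul_eq_mul]
    _ ≤ (3 ^ m * (N : ℝ) ^ m) * B := mul_le_mul_of_nonneg_right hboxc hB0
    _ ≤ (3 ^ m * (N : ℝ) ^ m) * (C * (tau (rk D e) : ℝ) ^ K * (2 * X) * (log N) ^ c) := by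
        rw [hB]
        gcongr
        linarith
    _ = 3 ^ m * (2 * C) * (N : ℝ) ^ m * (tau (rk D e) : ℝ) ^ K *
        ((N : ℝ) / rk D e) ^ (1 / (D : ℝ)) * (log N) ^ c := by
        rw [← hXd]
        ring

end Pool.MP_aab329_nt.SerreC
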