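import Pool.Agent.Lib.MP_aab329_nt.C.Cone

/-!
Serre bound for double covers branched along a rational hyperplane.
-/

set_option autoImplicit false

namespace Pool.MP_aab329_nt.SerreC

open Real

/-- A linear form is a sum of constants times the variables. -/
theorem lin_form {n : ℕ} {L : MvPolynomial (Fin n) ℚ} (h : L.IsHomogeneous 1) :
    ∃ a : Fin n → ℚ, L = ∑ i, MvPolynomial.C (a i) * MvPolynomial.X i := by
  have h1 : L ∈ MvPolynomial.homogeneousSubmodule (Fin n) ℚ 1 := h
  rw [MvPolynomial.homogeneousSubmodule_one_eq_span_X, Submodule.mem_span_range_iff_exists_fun]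
    at h1
  obtain ⟨c, hc⟩ := h1
  refine ⟨c, ?_⟩
  rw [← hc]
  exact Finset.sum_congr rfl fun i _ => by rw [MvPolynomial.smul_eq_C_mul]

/-- Evaluation after substitution. -/
theorem eval_subst {n : ℕ} (x : Fin n → ℚ) (s : Fin n → MvPolynomial (Fin n) ℚ)
    (p : MvPolynomial (Fin n) ℚ) : MvPolynomial.eval x (MvPolynomial.aeval s p) =
      MvPolynomial.eval (fun i => MvPolynomial.eval x (s i)) p := by
  induction p using MvPolynomial.induction_on with
  | C c => simp
  | add p q hp hq => simp only [map_add, hp, hq]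
  | mul_X p i hp => simp only [map_mul, hp, MvPolynomial.aeval_X, MvPolynomial.eval_X]

/-- A point of the hyperplane `L = 0` where `G ≠ 0`. -/
theorem exists_point {n : ℕ} {L G : MvPolynomial (Fin n) ℚ} (h₁ : L.IsHomogeneous 1)
    (hL : L ≠ 0) (hLG : ¬ L ∣ G) :
    ∃ Q : Fin n → ℚ, MvPolynomial.eval Q L = 0 ∧ MvPolynomial.eval Q G ≠ 0 := by
  classical
  by_contra hcon
  push Not at hcon
  apply hLG
  obtain ⟨a, ha⟩ := lin_form h₁
  obtain ⟨j, hj⟩ : ∃ j, a j ≠ 0 := by
    by_contra h0
    push Not at h0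
    exact hL (by rw [ha]; simp [h0])
  -- the substitution `X_j ↦ X_j - L / a_j`
  set s : Fin n → MvPolynomial (Fin n) ℚ := fun i =>
    if i = j then MvPolynomial.X j - MvPolynomial.C (a j)⁻¹ * L else MvPolynomial.X i with hs
  -- congruence modulo `L`
  have hmod : ∀ p : MvPolynomial (Fin n) ℚ, L ∣ p - MvPolynomial.aeval s p := by
    intro p
    induction p using MvPolynomial.induction_on with
    | C c => simp
    | add p q hp hq =>
      have e : p + q - MvPolynomial.aeval s (p + q) =
          (p - MvPolynomial.aeval s p) + (q - MvPolynomial.aeval s q) := by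
        rw [map_add]; ring
      rw [e]
      exact dvd_add hp hq
    | mul_X p i hp =>
      have hi : L ∣ (MvPolynomial.X i : MvPolynomial (Fin n) ℚ) - s i := by
        by_cases hij : i = j
        · subst hij
          refine ⟨MvPolynomial.C (a i)⁻¹, ?_⟩
          simp only [hs, if_true]
          ring
        · simp [hs, hij]
      have e : p * MvPolynomial.X i - MvPolynomial.aeval s (p * MvPolynomial.X i) =
          (p - MvPolynomial.aeval s p) * MvPolynomial.X i +
            MvPolynomial.aeval s p * (MvPolynomial.X i - s i) := by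
        rw [map_mul, MvPolynomial.aeval_X]; ring
      rw [e]
      exact dvd_add (Dvd.dvd.mul_right hp _) (Dvd.dvd.mul_left hi _)
  have hzero : MvPolynomial.aeval s G = 0 := by
    apply MvPolynomial.funext
    intro x
    rw [map_zero]
    have e : MvPolynomial.eval x (MvPolynomial.aeval s G) =
        MvPolynomial.eval (fun i => MvPolynomial.eval x (s i)) G := eval_subst x s G
    rw [e]
    apply hcon
    have e2 : ∀ i, MvPolynomial.eval x (s i) =
        x i - if i = j then (a j)⁻¹ * MvPolynomial.eval x L else 0 := by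
      intro i
      by_cases hij : i = j
      · subst hij; simp [hs]
      · simp [hs, hij]
    have e3 : ∀ y : Fin n → ℚ, MvPolynomial.eval y L = ∑ i, a i * y i := by
      intro y
      rw [ha]; simp
    rw [e3]
    simp only [e2, mul_sub, Finset.sum_sub_distrib]
    rw [← e3 x]
    simp only [mul_ite, mul_zero, Finset.sum_ite_eq', Finset.mem_univ, if_true]
    field_simp
    ring
  have := hmod G
  rwa [hzero, sub_zero] at this

/-- A nonzero form of odd degree is not a constant times a square. -/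
theorem odd_not_sq {n : ℕ} {G : MvPolynomial (Fin n) ℚ} {k : ℕ}
    (h : G.IsHomogeneous (2 * k + 1)) (hG : G ≠ 0) (c : ℚ) (R : MvPolynomial (Fin n) ℚ) :
    G ≠ MvPolynomial.C c * R ^ 2 := by
  intro e
  have hc : c ≠ 0 := by
    rintro rfl
    exact hG (by rw [e]; simp)
  have hR : R ≠ 0 := by
    rintro rfl
    exact hG (by rw [e]; simp)
  have h1 := h.totalDegree hG
  rw [e, MvPolynomial.totalDegree_mul_of_isDomain (by simpa using hc) (pow_ne_zero _ hR),
    MvPolynomial.totalDegree_C, zero_add, pow_two,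
    MvPolynomial.totalDegree_mul_of_isDomain hR hR] at h1
  omega

/-- Double covers branched along a rational hyperplane `L = 0`: choose `Q` with `L(Q) = 0`,
`G(Q) ≠ 0` (it exists as `L ∤ G`); neither `L` nor `G` is a constant times a square (odd
degree, nonzero). -/
theorem serre_hyper {m : ℕ} (F : MvPolynomial (Option (Fin (m + 2))) ℚ)
    (hdeg : F.degreeOf none = 2) (L G P : MvPolynomial (Fin (m + 2)) ℚ)
    (k : ℕ) (h₁ : L.IsHomogeneous 1) (h₂ : G.IsHomogeneous (2 * k + 1)) (hP : P ≠ 0)
    (hL : L ≠ 0) (hLG : ¬ L ∣ G)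
    (hdisc : (MvPolynomial.optionEquivLeft ℚ (Fin (m + 2)) F).discr = L * G * P ^ 2) :
    ∃ (c : ℕ) (C : ℝ), ∀ B : ℕ, 2 ≤ B →
      (({x : Fin (m + 2) → ℤ | (∀ i, |x i| ≤ (B : ℤ)) ∧
          ∃ t : ℚ, MvPolynomial.eval
            (fun i : Option (Fin (m + 2)) => Option.elim i t (fun j => ((x j : ℤ) : ℚ))) F =
              0}.ncard : ℕ) : ℝ)
        ≤ C * (B : ℝ) ^ (m + 1) * (log (B : ℝ)) ^ c := by
  obtain ⟨Q, hQL, hQG⟩ := exists_point h₁ hL hLG
  obtain ⟨a, ha⟩ := lin_form h₁
  have e3 : ∀ y : Fin (m + 2) → ℚ, MvPolynomial.eval y L = ∑ i, a i * y i := by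
    intro y
    rw [ha]; simp
  have hG : G ≠ 0 := by
    rintro rfl
    exact hLG (dvd_zero _)
  refine serre_cone F hdeg L G P 1 (2 * k + 1) h₁ h₂ hP Q ?_ hQG ?_ (odd_not_sq h₂ hG) hdisc
  · intro x c
    rw [e3, e3]
    have h0 : ∑ i, a i * Q i = 0 := by rw [← e3]; exact hQL
    have : ∑ i, a i * (x i + c * Q i) = ∑ i, a i * x i + c * ∑ i, a i * Q i := by
      rw [Finset.mul_sum, ← Finset.sum_add_distrib]
      exact Finset.sum_congr rfl fun i _ => by ring
    rw [this, h0]; ring
  · exact odd_not_sq (k := 0) (by simpa using h₁) hL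

end Pool.MP_aab329_nt.SerreC
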