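import Pool.Agent.Lib.MP_aab329_nt.C.Fibres

/-!
The sum over `v` in the count for `f(v) G(s, v)`.
-/

set_option autoImplicit false

namespace Pool.MP_aab329_nt.SerreC

open Finset Real Pool.MP_aab329_nt.SerreQ

/-- The values `e` with `|e| ∣ s`. -/
private lemma sv_card_e (s : ℕ) (hs : s ≠ 0) (T : Finset ℤ) (hT : ∀ e ∈ T, e.natAbs ∣ s) :
    T.card ≤ 2 * tau s := by
  classical
  have h1 : T ⊆ (s.divisors.image fun x : ℕ => (x : ℤ)) ∪ (s.divisors.image fun x : ℕ => -(x : ℤ)) := by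
    intro e he
    have h2 : e.natAbs ∈ s.divisors := Nat.mem_divisors.2 ⟨hT e he, hs⟩
    rw [Finset.mem_union, Finset.mem_image, Finset.mem_image]
    rcases Int.natAbs_eq e with h | h
    · exact Or.inl ⟨_, h2, h.symm⟩
    · exact Or.inr ⟨_, h2, h.symm⟩
  calc T.card ≤ _ := Finset.card_le_card h1
    _ ≤ _ := Finset.card_union_le _ _
    _ ≤ s.divisors.card + s.divisors.card :=
        Nat.add_le_add Finset.card_image_le Finset.card_image_le
    _ = 2 * tau s := by unfold tau; ring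

/-- The sum over `v`. Split by `ϱ = rk D (f(v))`. For `ϱ > N` the term is `≤ 2 τ(ϱ)^K` and
`ϱ ∣ f(v)`, so `multi_var` bounds the sum of `τ(|f(v)|)^K`. For `ϱ ≤ N`: `core` gives `e` with
`rk D e = ϱ`, `|e| ∣ ϱ^(D-1)`: at most `2 τ(ϱ)^(D-1)` values of `e` for each `ϱ`; `fibre_v`; the
total is at most `N^m ∑_{ϱ ≤ N} τ(ϱ)^K' (N / ϱ)^(2/D) (log N)^c`, `(N / ϱ)^(2/D) ≤ N / ϱ`
(`D ≥ 2`), `sum_tau_pow`. -/
theorem sum_v {m : ℕ} (D : ℕ) (hD : D.Prime) (f : MvPolynomial (Fin (m + 1)) ℤ) (hf0 : f ≠ 0)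
    (d : ℕ) (c₀ : ℤ) (hf : Lead f d c₀) (E₀ : MvPolynomial (Fin m) ℤ)
    (hE : ∀ v'' : Fin m → ℤ, MvPolynomial.eval v'' E₀ ≠ 0 → NPow D (fib f v'')) (K : ℕ) :
    ∃ (c : ℕ) (C : ℝ), 0 < C ∧ ∀ N : ℕ, 3 ≤ N →
      ∑ v ∈ (boxn (m + 1) N).filter (fun v => MvPolynomial.eval (Fin.tail v) E₀ ≠ 0 ∧
        MvPolynomial.eval v f ≠ 0),
        (tau (rk D (MvPolynomial.eval v f)) : ℝ) ^ K *
          (((N : ℝ) / rk D (MvPolynomial.eval v f)) ^ (1 / (D : ℝ)) + 1) ≤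
        C * (N : ℝ) ^ (m + 1) * (log N) ^ c := by
  classical
  obtain ⟨c₁, C₁, hC₁, hmv⟩ := multi_var (m + 1) f hf0 K
  obtain ⟨K₂, c₂, C₂, hC₂, hfv⟩ := fibre_v D hD f d c₀ hf E₀ hE
  set A : ℕ := K + K₂ + (D - 1) with hA
  refine ⟨c₁ + (c₂ + 2 ^ A), 2 * C₁ + 2 * C₂ * 2 ^ 2 ^ A, by positivity, ?_⟩
  intro N hN
  have hN0 : (0 : ℝ) < N := by exact_mod_cast (by omega : 0 < N)
  have hlog : 1 ≤ log N := by
    have h1 : Real.exp 1 < N := by
      have h2 := Real.exp_one_lt_d9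
      have h3 : (3 : ℝ) ≤ N := by exact_mod_cast hN
      linarith
    rw [Real.le_log_iff_exp_le hN0]
    exact h1.le
  have hD0 : (0 : ℝ) < D := by exact_mod_cast hD.pos
  have hD2 : (2 : ℝ) ≤ D := by exact_mod_cast hD.two_le
  set V := (boxn (m + 1) N).filter (fun v => MvPolynomial.eval (Fin.tail v) E₀ ≠ 0 ∧
        MvPolynomial.eval v f ≠ 0) with hV
  -- abbreviations
  set R : (Fin (m + 1) → ℤ) → ℕ := fun v => rk D (MvPolynomial.eval v f) with hR
  have hR1 : ∀ v, 1 ≤ R v := fun v => rk_pos D _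
  have hRpos : ∀ v, (0 : ℝ) < R v := fun v => by exact_mod_cast hR1 v
  -- termwise bound
  have hterm : ∀ v ∈ V, (tau (R v) : ℝ) ^ K * (((N : ℝ) / R v) ^ (1 / (D : ℝ)) + 1) ≤
      2 * (tau (MvPolynomial.eval v f).natAbs : ℝ) ^ K +
      (if R v ≤ N then (tau (R v) : ℝ) ^ K * ((N : ℝ) / R v) ^ (1 / (D : ℝ)) else 0) := by
    intro v hv
    rw [hV, Finset.mem_filter] at hv
    obtain ⟨_, _, hv3⟩ := hv
    have hna : (MvPolynomial.eval v f).natAbs ≠ 0 := Int.natAbs_ne_zero.2 hv3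
    have ht : (tau (R v) : ℝ) ^ K ≤ (tau (MvPolynomial.eval v f).natAbs : ℝ) ^ K := by
      apply pow_le_pow_left₀ (by positivity)
      exact_mod_cast tau_le_of_dvd (rk_dvd D _) hna
    have ht0 : (0 : ℝ) ≤ (tau (R v) : ℝ) ^ K := by positivity
    by_cases hle : R v ≤ N
    · rw [if_pos hle, mul_add, mul_one]
      have h5 : (0 : ℝ) ≤ (tau (MvPolynomial.eval v f).natAbs : ℝ) ^ K := by positivity
      linarith
    · rw [if_neg hle, add_zero]
      have h1 : ((N : ℝ) / R v) ^ (1 / (D : ℝ)) ≤ 1 := by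
        apply Real.rpow_le_one (by positivity)
        · rw [div_le_one (hRpos v)]
          exact_mod_cast (by omega : N ≤ R v)
        · positivity
      calc (tau (R v) : ℝ) ^ K * (((N : ℝ) / R v) ^ (1 / (D : ℝ)) + 1)
          ≤ (tau (R v) : ℝ) ^ K * 2 := mul_le_mul_of_nonneg_left (by linarith) ht0
        _ ≤ _ := by linarith
  -- the first part
  have hpart1 : ∑ v ∈ V, 2 * (tau (MvPolynomial.eval v f).natAbs : ℝ) ^ K ≤
      2 * (C₁ * (N : ℝ) ^ (m + 1) * (log N) ^ c₁) := by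
    rw [← Finset.mul_sum]
    refine mul_le_mul_of_nonneg_left ?_ (by norm_num)
    refine le_trans ?_ (hmv N hN)
    apply Finset.sum_le_sum_of_subset_of_nonneg
    · intro v hv
      rw [hV, Finset.mem_filter] at hv
      rw [Finset.mem_filter]
      exact ⟨hv.1, hv.2.2⟩
    · intro v _ _
      positivity
  -- the second part
  have hpart2 : ∑ v ∈ V, (if R v ≤ N then (tau (R v) : ℝ) ^ K *
      ((N : ℝ) / R v) ^ (1 / (D : ℝ)) else 0) ≤
      2 * C₂ * 2 ^ 2 ^ A * (N : ℝ) ^ (m + 1) * (log N) ^ (c₂ + 2 ^ A) := by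
    rw [← Finset.sum_filter]
    set W := V.filter (fun v => R v ≤ N) with hW
    have hmaps : ∀ v ∈ W, R v ∈ Icc 1 N := by
      intro v hv
      rw [hW, Finset.mem_filter] at hv
      exact Finset.mem_Icc.2 ⟨hR1 v, hv.2⟩
    rw [← Finset.sum_fiberwise_of_maps_to hmaps]
    have hfib : ∀ ϱ ∈ Icc 1 N, ∑ v ∈ W.filter (fun v => R v = ϱ), (tau (R v) : ℝ) ^ K *
        ((N : ℝ) / R v) ^ (1 / (D : ℝ)) ≤
        2 * C₂ * (N : ℝ) ^ (m + 1) * (log N) ^ c₂ * ((tau ϱ : ℝ) ^ A / ϱ) := by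
      intro ϱ hϱ
      rw [Finset.mem_Icc] at hϱ
      have hϱ0 : (0 : ℝ) < ϱ := by exact_mod_cast hϱ.1
      set Fb := W.filter (fun v => R v = ϱ) with hFb
      -- the number of elements of the fibre
      have hcard : (Fb.card : ℝ) ≤ 2 * (tau ϱ : ℝ) ^ (D - 1) *
          (C₂ * (N : ℝ) ^ m * (tau ϱ : ℝ) ^ K₂ * ((N : ℝ) / ϱ) ^ (1 / (D : ℝ)) *
            (log N) ^ c₂) := by
        have hcore : ∀ v : Fin (m + 1) → ℤ, ∃ e : ℤ, MvPolynomial.eval v f ≠ 0 →
            (∃ z : ℤ, MvPolynomial.eval v f = e * z ^ D) ∧ e ≠ 0 ∧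
            e.natAbs ∣ rk D (MvPolynomial.eval v f) ^ (D - 1) ∧
            rk D e = rk D (MvPolynomial.eval v f) := by
          intro v
          by_cases hv : MvPolynomial.eval v f = 0
          · exact ⟨0, fun h => absurd hv h⟩
          · obtain ⟨e, z, h1, h2, h3, h4⟩ := core D hD.two_le _ hv
            exact ⟨e, fun _ => ⟨⟨z, h1⟩, h2, h3, h4⟩⟩
        choose ee hee using hcore
        have hFbmem : ∀ v ∈ Fb, v ∈ boxn (m + 1) N ∧ MvPolynomial.eval (Fin.tail v) E₀ ≠ 0 ∧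
            MvPolynomial.eval v f ≠ 0 ∧ R v = ϱ := by
          intro v hv
          rw [hFb, Finset.mem_filter, hW, Finset.mem_filter, hV, Finset.mem_filter] at hv
          exact ⟨hv.1.1.1, hv.1.1.2.1, hv.1.1.2.2, hv.2⟩
        have himg : (Fb.image ee).card ≤ 2 * tau ϱ ^ (D - 1) := by
          refine (sv_card_e (ϱ ^ (D - 1)) (pow_ne_zero _ (by omega)) _ ?_).trans
            (Nat.mul_le_mul_left _ (tau_pow_le _ _))
          intro e he
          rw [Finset.mem_image] at he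
          obtain ⟨v, hv, rfl⟩ := he
          obtain ⟨_, _, h3, h4⟩ := hFbmem v hv
          obtain ⟨_, _, h5, _⟩ := hee v h3
          have h6 : rk D (MvPolynomial.eval v f) = ϱ := h4
          rw [h6] at h5
          exact h5
        have hsplit : Fb.card = ∑ e ∈ Fb.image ee, (Fb.filter (fun v => ee v = e)).card :=
          Finset.card_eq_sum_card_image ee Fb
        rw [hsplit]
        push_cast
        have heach : ∀ e ∈ Fb.image ee, ((Fb.filter (fun v => ee v = e)).card : ℝ) ≤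
            C₂ * (N : ℝ) ^ m * (tau ϱ : ℝ) ^ K₂ * ((N : ℝ) / ϱ) ^ (1 / (D : ℝ)) *
            (log N) ^ c₂ := by
          intro e he
          rw [Finset.mem_image] at he
          obtain ⟨v₀, hv₀, rfl⟩ := he
          obtain ⟨_, _, h3, h4⟩ := hFbmem v₀ hv₀
          have h4' : rk D (MvPolynomial.eval v₀ f) = ϱ := h4
          obtain ⟨_, he0, he1, he2⟩ := hee v₀ h3
          rw [h4'] at he1 he2
          have hbd : |ee v₀| ≤ (N : ℤ) ^ D := by
            rw [Int.abs_eq_natAbs]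
            have h7 : (ee v₀).natAbs ≤ ϱ ^ (D - 1) :=
              Nat.le_of_dvd (pow_pos (by omega) _) he1
            have h8 : ϱ ^ (D - 1) ≤ N ^ (D - 1) := Nat.pow_le_pow_left hϱ.2 _
            have h9 : N ^ (D - 1) ≤ N ^ D := Nat.pow_le_pow_right (by omega) (by omega)
            exact_mod_cast h7.trans (h8.trans h9)
          have h10 := hfv N hN (ee v₀) he0 hbd (by rw [he2]; exact hϱ.2)
          rw [he2] at h10
          refine le_trans ?_ h10
          rw [← Set.ncard_coe_finset]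
          refine Nat.cast_le.2 ?_
          apply Set.ncard_le_ncard
          · intro v hv
            rw [Finset.mem_coe, Finset.mem_filter] at hv
            obtain ⟨hv1, hv2⟩ := hv
            obtain ⟨g1, g2, g3, g4⟩ := hFbmem v hv1
            obtain ⟨g5, _⟩ := hee v g3
            rw [hv2] at g5
            exact ⟨g1, g2, g3, g5⟩
          · apply Set.Finite.subset (boxn (m + 1) N).finite_toSet
            intro v hv
            exact hv.1
        calc ∑ e ∈ Fb.image ee, ((Fb.filter (fun v => ee v = e)).card : ℝ)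
            ≤ ∑ e ∈ Fb.image ee, C₂ * (N : ℝ) ^ m * (tau ϱ : ℝ) ^ K₂ *
              ((N : ℝ) / ϱ) ^ (1 / (D : ℝ)) * (log N) ^ c₂ := Finset.sum_le_sum heach
          _ = ((Fb.image ee).card : ℝ) * (C₂ * (N : ℝ) ^ m * (tau ϱ : ℝ) ^ K₂ *
              ((N : ℝ) / ϱ) ^ (1 / (D : ℝ)) * (log N) ^ c₂) := by
              rw [Finset.sum_const, nsmul_eq_mul]
          _ ≤ _ := by
              refine mul_le_mul_of_nonneg_right ?_ (by positivity)
              exact_mod_cast himg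
      have hconst : ∑ v ∈ Fb, (tau (R v) : ℝ) ^ K * ((N : ℝ) / R v) ^ (1 / (D : ℝ)) =
          (Fb.card : ℝ) * ((tau ϱ : ℝ) ^ K * ((N : ℝ) / ϱ) ^ (1 / (D : ℝ))) := by
        rw [← nsmul_eq_mul, ← Finset.sum_const]
        refine Finset.sum_congr rfl fun v hv => ?_
        rw [hFb, Finset.mem_filter] at hv
        rw [hv.2]
      rw [hconst]
      have hNϱ : (1 : ℝ) ≤ (N : ℝ) / ϱ := by
        rw [le_div_iff₀ hϱ0, one_mul]
        exact_mod_cast hϱ.2
      have hpow : ((N : ℝ) / ϱ) ^ (1 / (D : ℝ)) * ((N : ℝ) / ϱ) ^ (1 / (D : ℝ)) ≤ (N : ℝ) / ϱ := by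
        rw [← Real.rpow_add (by positivity)]
        calc ((N : ℝ) / ϱ) ^ (1 / (D : ℝ) + 1 / (D : ℝ)) ≤ ((N : ℝ) / ϱ) ^ (1 : ℝ) := by
              apply Real.rpow_le_rpow_of_exponent_le hNϱ
              rw [← add_div, div_le_one hD0]
              linarith
          _ = _ := Real.rpow_one _
      calc (Fb.card : ℝ) * ((tau ϱ : ℝ) ^ K * ((N : ℝ) / ϱ) ^ (1 / (D : ℝ)))
          ≤ 2 * (tau ϱ : ℝ) ^ (D - 1) *
          (C₂ * (N : ℝ) ^ m * (tau ϱ : ℝ) ^ K₂ * ((N : ℝ) / ϱ) ^ (1 / (D : ℝ)) *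
            (log N) ^ c₂) * ((tau ϱ : ℝ) ^ K * ((N : ℝ) / ϱ) ^ (1 / (D : ℝ))) :=
            mul_le_mul_of_nonneg_right hcard (by positivity)
        _ = (2 * C₂ * (N : ℝ) ^ m * (log N) ^ c₂ * (tau ϱ : ℝ) ^ A) *
            (((N : ℝ) / ϱ) ^ (1 / (D : ℝ)) * ((N : ℝ) / ϱ) ^ (1 / (D : ℝ))) := by
            rw [hA, pow_add, pow_add]
            ring
        _ ≤ (2 * C₂ * (N : ℝ) ^ m * (log N) ^ c₂ * (tau ϱ : ℝ) ^ A) * ((N : ℝ) / ϱ) :=
            mul_le_mul_of_nonneg_left hpow (by positivity)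
        _ = _ := by
            rw [pow_succ]
            ring
    refine (Finset.sum_le_sum hfib).trans ?_
    rw [← Finset.mul_sum]
    have hst := sum_tau_pow A N (by omega)
    calc 2 * C₂ * (N : ℝ) ^ (m + 1) * (log N) ^ c₂ * ∑ ϱ ∈ Icc 1 N, (tau ϱ : ℝ) ^ A / ϱ
        ≤ 2 * C₂ * (N : ℝ) ^ (m + 1) * (log N) ^ c₂ * (1 + log N) ^ (2 ^ A) :=
          mul_le_mul_of_nonneg_left hst (by positivity)
      _ ≤ 2 * C₂ * (N : ℝ) ^ (m + 1) * (log N) ^ c₂ * (2 * log N) ^ (2 ^ A) := by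
          refine mul_le_mul_of_nonneg_left ?_ (by positivity)
          exact pow_le_pow_left₀ (by linarith) (by linarith) _
      _ = _ := by
          rw [mul_pow, pow_add]
          ring
  -- the total
  have hl1 : (log N) ^ c₁ ≤ (log N) ^ (c₁ + (c₂ + 2 ^ A)) :=
    pow_le_pow_right₀ hlog (Nat.le_add_right _ _)
  have hl2 : (log N) ^ (c₂ + 2 ^ A) ≤ (log N) ^ (c₁ + (c₂ + 2 ^ A)) :=
    pow_le_pow_right₀ hlog (Nat.le_add_left _ _)
  calc ∑ v ∈ V, (tau (R v) : ℝ) ^ K * (((N : ℝ) / R v) ^ (1 / (D : ℝ)) + 1)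
      ≤ ∑ v ∈ V, (2 * (tau (MvPolynomial.eval v f).natAbs : ℝ) ^ K +
        (if R v ≤ N then (tau (R v) : ℝ) ^ K * ((N : ℝ) / R v) ^ (1 / (D : ℝ)) else 0)) :=
        Finset.sum_le_sum hterm
    _ ≤ 2 * (C₁ * (N : ℝ) ^ (m + 1) * (log N) ^ c₁) +
        2 * C₂ * 2 ^ 2 ^ A * (N : ℝ) ^ (m + 1) * (log N) ^ (c₂ + 2 ^ A) := by
        rw [Finset.sum_add_distrib]
        exact add_le_add hpart1 hpart2
    _ ≤ 2 * (C₁ * (N : ℝ) ^ (m + 1) * (log N) ^ (c₁ + (c₂ + 2 ^ A))) +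
        2 * C₂ * 2 ^ 2 ^ A * (N : ℝ) ^ (m + 1) * (log N) ^ (c₁ + (c₂ + 2 ^ A)) := by
        refine add_le_add ?_ ?_
        · refine mul_le_mul_of_nonneg_left ?_ (by norm_num)
          exact mul_le_mul_of_nonneg_left hl1 (by positivity)
        · exact mul_le_mul_of_nonneg_left hl2 (by positivity)
    _ = _ := by ring

end Pool.MP_aab329_nt.SerreC
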