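import Pool.Agent.Lib.MP_aab329_nt.C.Exc
import Pool.Agent.Lib.MP_aab329_nt.C.SumV

/-!
The count for `f(v) G(s, v)`, `f` without the variable `s`.
-/

set_option autoImplicit false

namespace Pool.MP_aab329_nt.SerreC

open Finset Real Pool.MP_aab329_nt.SerreQ

private theorem mc_log {N : ℕ} (hN : 3 ≤ N) : 1 ≤ log (N : ℝ) := by
  have hNr : (3 : ℝ) ≤ (N : ℝ) := by exact_mod_cast hN
  rw [Real.le_log_iff_exp_le (by positivity)]
  have := Real.exp_one_lt_d9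
  linarith

private theorem mc_eval_ren {n : ℕ} (r : MvPolynomial (Fin n) ℤ) (x : Fin (n + 1) → ℤ) :
    MvPolynomial.eval x (MvPolynomial.rename Fin.succ r) = MvPolynomial.eval (Fin.tail x) r := by
  rw [MvPolynomial.eval_rename]
  rfl

private theorem mc_ren_ne {n : ℕ} (r : MvPolynomial (Fin n) ℤ) (hr : r ≠ 0) :
    MvPolynomial.rename (Fin.succ : Fin n → Fin (n + 1)) r ≠ 0 := by
  rw [Ne, map_eq_zero_iff _ (MvPolynomial.rename_injective _ (Fin.succ_injective n))]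
  exact hr

private theorem mc_lead_ne {n : ℕ} {F : MvPolynomial (Fin (n + 1)) ℤ} {d : ℕ} {c₀ : ℤ}
    (h : Lead F d c₀) : F ≠ 0 := by
  rintro rfl
  have h1 := h.lc
  rw [map_zero, Polynomial.coeff_zero] at h1
  exact h.ne (MvPolynomial.C_injective _ _ (by rw [← h1, map_zero]))

/-- The count. Points with `f = 0`, `G = 0`, `E_G(v) = 0` or `E_f(v'') = 0` (`exists_exc`):
`zeros_le`. The others: `fibre_s`, `sum_v`. -/
theorem main_c {m : ℕ} (D : ℕ) (hD : D.Prime) (f : MvPolynomial (Fin (m + 1)) ℤ)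
    (G : MvPolynomial (Fin (m + 2)) ℤ) (d₁ d₂ : ℕ) (c₁ c₂ : ℤ) (hf : Lead f d₁ c₁)
    (hG : Lead G d₂ c₂)
    (hfs : ∀ (c : ℚ) (Q : MvPolynomial (Fin (m + 1)) ℚ),
      MvPolynomial.map (Int.castRingHom ℚ) f ≠ MvPolynomial.C c * Q ^ D)
    (hGs : ∀ (c : ℚ) (Q : MvPolynomial (Fin (m + 2)) ℚ),
      MvPolynomial.map (Int.castRingHom ℚ) G ≠ MvPolynomial.C c * Q ^ D) :
    ∃ (c : ℕ) (C : ℝ), 0 < C ∧ ∀ N : ℕ, 3 ≤ N →
      ({x : Fin (m + 2) → ℤ | x ∈ boxn (m + 2) N ∧ ∃ T : ℤ,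
        MvPolynomial.eval (Fin.tail x) f * MvPolynomial.eval x G = T ^ D}.ncard : ℝ) ≤
        C * (N : ℝ) ^ (m + 1) * (log N) ^ c := by
  classical
  have hf0 : f ≠ 0 := mc_lead_ne hf
  have hG0 : G ≠ 0 := mc_lead_ne hG
  obtain ⟨E₀, hE₀, hE⟩ := exists_exc D hD.two_le f d₁ c₁ hf hfs
  obtain ⟨E₁, hE₁, hE'⟩ := exists_exc D hD.two_le G d₂ c₂ hG hGs
  obtain ⟨K, c, C, hC, hfib⟩ := fibre_s D hD f G d₂ c₂ hG
  obtain ⟨c', C', hC', hsum⟩ := sum_v D hD f hf0 d₁ c₁ hf E₀ hE K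
  obtain ⟨K₁, hK₁, hz₁⟩ := zeros_le (MvPolynomial.rename Fin.succ f) (mc_ren_ne f hf0)
  obtain ⟨K₂, hK₂, hz₂⟩ := zeros_le G hG0
  obtain ⟨K₃, hK₃, hz₃⟩ := zeros_le (MvPolynomial.rename Fin.succ E₁) (mc_ren_ne E₁ hE₁)
  obtain ⟨K₄, hK₄, hz₄⟩ := zeros_le
    (MvPolynomial.rename Fin.succ (MvPolynomial.rename (Fin.succ : Fin m → Fin (m + 1)) E₀))
    (mc_ren_ne _ (mc_ren_ne E₀ hE₀))
  refine ⟨c + c', K₁ + K₂ + K₃ + K₄ + C * C', by positivity, ?_⟩
  intro N hN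
  have hN1 : 1 ≤ N := by omega
  have hlog := mc_log hN
  have hz₁ := hz₁ N hN1
  have hz₂ := hz₂ N hN1
  have hz₃ := hz₃ N hN1
  have hz₄ := hz₄ N hN1
  have hsum := hsum N hN
  have hfib := hfib N hN
  set Z₁ := (boxn (m + 1 + 1) N).filter
    (fun x => MvPolynomial.eval x (MvPolynomial.rename Fin.succ f) = 0) with hZ₁
  set Z₂ := (boxn (m + 1 + 1) N).filter (fun x => MvPolynomial.eval x G = 0) with hZ₂
  set Z₃ := (boxn (m + 1 + 1) N).filter
    (fun x => MvPolynomial.eval x (MvPolynomial.rename Fin.succ E₁) = 0) with hZ₃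
  set Z₄ := (boxn (m + 1 + 1) N).filter
    (fun x => MvPolynomial.eval x (MvPolynomial.rename Fin.succ
      (MvPolynomial.rename (Fin.succ : Fin m → Fin (m + 1)) E₀)) = 0) with hZ₄
  set B' := (boxn (m + 1) N).filter (fun v => MvPolynomial.eval (Fin.tail v) E₀ ≠ 0 ∧
        MvPolynomial.eval v f ≠ 0) with hB'
  set B'' := B'.filter (fun v => MvPolynomial.eval v E₁ ≠ 0) with hB''
  set Fb : (Fin (m + 1) → ℤ) → Finset ℤ := fun v => (Icc (-(N : ℤ)) N).filter (fun s =>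
    (fib G v).eval s ≠ 0 ∧ ∃ T : ℤ, MvPolynomial.eval v f * (fib G v).eval s = T ^ D) with hFb
  set W := B''.biUnion (fun v => (Fb v).image (fun s => (Fin.cons s v : Fin (m + 1 + 1) → ℤ)))
    with hW
  have hsub : {x : Fin (m + 2) → ℤ | x ∈ boxn (m + 2) N ∧ ∃ T : ℤ,
        MvPolynomial.eval (Fin.tail x) f * MvPolynomial.eval x G = T ^ D} ⊆
        ((Z₁ ∪ Z₂ ∪ Z₃ ∪ Z₄ ∪ W : Finset (Fin (m + 1 + 1) → ℤ)) : Set (Fin (m + 1 + 1) → ℤ)) := by
    rintro x ⟨hxb, T, hT⟩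
    have hxb' : x ∈ boxn (m + 1 + 1) N := hxb
    obtain ⟨t, v, rfl⟩ : ∃ (t : ℤ) (v : Fin (m + 1) → ℤ), x = Fin.cons t v :=
      ⟨x 0, Fin.tail x, (Fin.cons_self_tail x).symm⟩
    have hmem : |t| ≤ N ∧ v ∈ boxn (m + 1) N := by
      simp only [boxn, Fintype.mem_piFinset] at hxb' ⊢
      constructor
      · have := hxb' 0
        rw [Fin.cons_zero, Finset.mem_Icc] at this
        exact abs_le.2 this
      · intro j
        have := hxb' j.succ
        rwa [Fin.cons_succ] at this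
    rw [Fin.tail_cons] at hT
    rw [Finset.mem_coe]
    by_cases h1 : MvPolynomial.eval v f = 0
    · simp only [Finset.mem_union]
      left; left; left; left
      refine Finset.mem_filter.2 ⟨hxb', ?_⟩
      rw [mc_eval_ren, Fin.tail_cons]
      exact h1
    by_cases h2 : MvPolynomial.eval (Fin.cons t v : Fin (m + 1 + 1) → ℤ) G = 0
    · simp only [Finset.mem_union]
      left; left; left; right
      exact Finset.mem_filter.2 ⟨hxb', h2⟩
    by_cases h3 : MvPolynomial.eval v E₁ = 0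
    · simp only [Finset.mem_union]
      left; left; right
      refine Finset.mem_filter.2 ⟨hxb', ?_⟩
      rw [mc_eval_ren, Fin.tail_cons]
      exact h3
    by_cases h4 : MvPolynomial.eval (Fin.tail v) E₀ = 0
    · simp only [Finset.mem_union]
      left; right
      refine Finset.mem_filter.2 ⟨hxb', ?_⟩
      rw [mc_eval_ren, Fin.tail_cons, mc_eval_ren]
      exact h4
    apply Finset.mem_union_right
    rw [hW, Finset.mem_biUnion]
    refine ⟨v, Finset.mem_filter.2 ⟨Finset.mem_filter.2 ⟨hmem.2, h4, h1⟩, h3⟩, ?_⟩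
    rw [Finset.mem_image]
    refine ⟨t, Finset.mem_filter.2 ⟨Finset.mem_Icc.2 (abs_le.1 hmem.1), ?_, T, ?_⟩, rfl⟩
    · rw [fib_eval]
      exact h2
    · rw [fib_eval]
      exact hT
  have hcard : ({x : Fin (m + 2) → ℤ | x ∈ boxn (m + 2) N ∧ ∃ T : ℤ,
        MvPolynomial.eval (Fin.tail x) f * MvPolynomial.eval x G = T ^ D}.ncard) ≤
      Z₁.card + Z₂.card + Z₃.card + Z₄.card + W.card := by
    refine (Set.ncard_le_ncard hsub (Finset.finite_toSet _)).trans ?_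
    rw [Set.ncard_coe_finset]
    refine (Finset.card_union_le _ _).trans ?_
    refine Nat.add_le_add_right ((Finset.card_union_le _ _).trans ?_) _
    refine Nat.add_le_add_right ((Finset.card_union_le _ _).trans ?_) _
    exact Nat.add_le_add_right (Finset.card_union_le _ _) _
  have hWcard : W.card ≤ ∑ v ∈ B'', (Fb v).card :=
    Finset.card_biUnion_le.trans (Finset.sum_le_sum fun v _ => Finset.card_image_le)
  have hFbc : ∀ v ∈ B'', ((Fb v).card : ℝ) ≤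
      (C * (log N) ^ c) * ((tau (rk D (MvPolynomial.eval v f)) : ℝ) ^ K *
        (((N : ℝ) / rk D (MvPolynomial.eval v f)) ^ (1 / (D : ℝ)) + 1)) := by
    intro v hv
    obtain ⟨hv1, h3⟩ := Finset.mem_filter.1 hv
    obtain ⟨hvb, h4, h1⟩ := Finset.mem_filter.1 hv1
    have h7 := hfib v hvb h1 (hE' v h3)
    have h8 : (Fb v).card = {s : ℤ | |s| ≤ N ∧ (fib G v).eval s ≠ 0 ∧
        ∃ T : ℤ, MvPolynomial.eval v f * (fib G v).eval s = T ^ D}.ncard := by
      rw [← Set.ncard_coe_finset]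
      congr 1
      ext s
      simp only [hFb, Finset.coe_filter, Finset.mem_Icc, Set.mem_ofPred_eq, abs_le]
    rw [h8]
    refine h7.trans (le_of_eq ?_)
    ring
  have hWr : (W.card : ℝ) ≤ C * C' * ((N : ℝ) ^ (m + 1) * (log N) ^ (c + c')) := by
    calc (W.card : ℝ) ≤ ∑ v ∈ B'', ((Fb v).card : ℝ) := by exact_mod_cast hWcard
      _ ≤ ∑ v ∈ B'', (C * (log N) ^ c) * ((tau (rk D (MvPolynomial.eval v f)) : ℝ) ^ K *
        (((N : ℝ) / rk D (MvPolynomial.eval v f)) ^ (1 / (D : ℝ)) + 1)) :=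
          Finset.sum_le_sum hFbc
      _ ≤ ∑ v ∈ B', (C * (log N) ^ c) * ((tau (rk D (MvPolynomial.eval v f)) : ℝ) ^ K *
        (((N : ℝ) / rk D (MvPolynomial.eval v f)) ^ (1 / (D : ℝ)) + 1)) := by
          refine Finset.sum_le_sum_of_subset_of_nonneg (Finset.filter_subset _ _) ?_
          intro v _ _
          have : 0 ≤ log (N : ℝ) := by linarith
          positivity
      _ = (C * (log N) ^ c) * ∑ v ∈ B', ((tau (rk D (MvPolynomial.eval v f)) : ℝ) ^ K *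
        (((N : ℝ) / rk D (MvPolynomial.eval v f)) ^ (1 / (D : ℝ)) + 1)) := by
          rw [Finset.mul_sum]
      _ ≤ (C * (log N) ^ c) * (C' * (N : ℝ) ^ (m + 1) * (log N) ^ c') := by
          refine mul_le_mul_of_nonneg_left hsum ?_
          have : 0 ≤ log (N : ℝ) := by linarith
          positivity
      _ = _ := by rw [pow_add]; ring
  have hL1 : (1 : ℝ) ≤ (log N) ^ (c + c') := one_le_pow₀ hlog
  have hNp : (0 : ℝ) ≤ (N : ℝ) ^ (m + 1) := by positivity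
  have hX : (N : ℝ) ^ (m + 1) ≤ (N : ℝ) ^ (m + 1) * (log N) ^ (c + c') :=
    le_mul_of_one_le_right hNp hL1
  set X := (N : ℝ) ^ (m + 1) * (log N) ^ (c + c') with hXd
  have hfin : (({x : Fin (m + 2) → ℤ | x ∈ boxn (m + 2) N ∧ ∃ T : ℤ,
        MvPolynomial.eval (Fin.tail x) f * MvPolynomial.eval x G = T ^ D}.ncard : ℕ) : ℝ) ≤
      (Z₁.card : ℝ) + Z₂.card + Z₃.card + Z₄.card + W.card := by exact_mod_cast hcard
  have e1 : K₁ * (N : ℝ) ^ (m + 1) ≤ K₁ * X := mul_le_mul_of_nonneg_left hX hK₁.le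
  have e2 : K₂ * (N : ℝ) ^ (m + 1) ≤ K₂ * X := mul_le_mul_of_nonneg_left hX hK₂.le
  have e3 : K₃ * (N : ℝ) ^ (m + 1) ≤ K₃ * X := mul_le_mul_of_nonneg_left hX hK₃.le
  have e4 : K₄ * (N : ℝ) ^ (m + 1) ≤ K₄ * X := mul_le_mul_of_nonneg_left hX hK₄.le
  calc (({x : Fin (m + 2) → ℤ | x ∈ boxn (m + 2) N ∧ ∃ T : ℤ,
        MvPolynomial.eval (Fin.tail x) f * MvPolynomial.eval x G = T ^ D}.ncard : ℕ) : ℝ)
      ≤ (Z₁.card : ℝ) + Z₂.card + Z₃.card + Z₄.card + W.card := hfin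
    _ ≤ K₁ * X + K₂ * X + K₃ * X + K₄ * X + C * C' * X := by linarith
    _ = (K₁ + K₂ + K₃ + K₄ + C * C') * (N : ℝ) ^ (m + 1) * (log N) ^ (c + c') := by
        rw [hXd]; ring

end Pool.MP_aab329_nt.SerreC
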