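import Pool.Agent.Lib.MP_aab329_nt.C.Coord

/-!
The count over `ℚ`.
-/

set_option autoImplicit false

namespace Pool.MP_aab329_nt.SerreC

open Real

private lemma Rat_clear {σ : Type*} (F : MvPolynomial σ ℚ) :
    ∃ (N : ℤ) (G : MvPolynomial σ ℤ), N ≠ 0 ∧
      MvPolynomial.map (Int.castRingHom ℚ) G = MvPolynomial.C (N : ℚ) * F := by
  induction F using MvPolynomial.induction_on' with
  | monomial u a =>
    refine ⟨(a.den : ℤ), MvPolynomial.monomial u a.num, by exact_mod_cast a.den_nz, ?_⟩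
    rw [MvPolynomial.map_monomial, MvPolynomial.C_mul_monomial]
    congr 1
    simp only [eq_intCast, Int.cast_natCast]
    rw [mul_comm]
    exact (Rat.mul_den_eq_num a).symm
  | add p q hp hq =>
    obtain ⟨N1, G1, h1, e1⟩ := hp
    obtain ⟨N2, G2, h2, e2⟩ := hq
    refine ⟨N1 * N2, MvPolynomial.C N2 * G1 + MvPolynomial.C N1 * G2, mul_ne_zero h1 h2, ?_⟩
    rw [map_add, map_mul, map_mul, e1, e2, MvPolynomial.map_C, MvPolynomial.map_C]
    push_cast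
    simp only [map_mul, eq_intCast]
    ring

private lemma Rat_clearPow {σ : Type*} (D : ℕ) (hD : 1 ≤ D) (F : MvPolynomial σ ℚ) :
    ∃ (N : ℤ) (G : MvPolynomial σ ℤ), N ≠ 0 ∧
      MvPolynomial.map (Int.castRingHom ℚ) G = MvPolynomial.C ((N : ℚ) ^ D) * F := by
  obtain ⟨N, G, hN, hG⟩ := Rat_clear F
  refine ⟨N, MvPolynomial.C (N ^ (D - 1)) * G, hN, ?_⟩
  obtain ⟨E, rfl⟩ : ∃ E, D = E + 1 := ⟨D - 1, by omega⟩
  rw [map_mul, hG, MvPolynomial.map_C, Nat.add_sub_cancel, pow_succ, map_mul, ← mul_assoc]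
  simp only [eq_intCast]
  push_cast
  rfl

private lemma Rat_clearVec {n : ℕ} (Q : Fin n → ℚ) :
    ∃ (N : ℤ) (P : Fin n → ℤ), N ≠ 0 ∧ ∀ i, ((P i : ℤ) : ℚ) = (N : ℚ) * Q i := by
  classical
  refine ⟨∏ j, ((Q j).den : ℤ), fun i => (Q i).num * ∏ j ∈ Finset.univ.erase i, ((Q j).den : ℤ),
    ?_, fun i => ?_⟩
  · exact Finset.prod_ne_zero_iff.2 fun j _ => by exact_mod_cast (Q j).den_nz
  · have h1 : (∏ j, ((Q j).den : ℤ)) = ((Q i).den : ℤ) * ∏ j ∈ Finset.univ.erase i, ((Q j).den : ℤ) :=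
      (Finset.mul_prod_erase _ _ (Finset.mem_univ i)).symm
    rw [h1]
    push_cast
    have h2 : ((Q i).num : ℚ) = Q i * (Q i).den := (Rat.mul_den_eq_num (Q i)).symm
    rw [h2]
    ring

private lemma Rat_eval {n : ℕ} (G : MvPolynomial (Fin n) ℤ) (x : Fin n → ℤ) :
    MvPolynomial.eval (fun j => ((x j : ℤ) : ℚ)) (MvPolynomial.map (Int.castRingHom ℚ) G) =
      ((MvPolynomial.eval x G : ℤ) : ℚ) := by
  have h : (MvPolynomial.eval (fun j => ((x j : ℤ) : ℚ))).comp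
      (MvPolynomial.map (Int.castRingHom ℚ)) = (Int.castRingHom ℚ).comp (MvPolynomial.eval x) := by
    apply MvPolynomial.ringHom_ext
    · intro r; simp
    · intro i; simp
  have := congrArg (fun g : MvPolynomial (Fin n) ℤ →+* ℚ => g G) h
  simpa using this

private lemma Rat_hom {σ : Type*} {F : MvPolynomial σ ℚ} {G : MvPolynomial σ ℤ} {r : ℚ} {d : ℕ}
    (hF : F.IsHomogeneous d)
    (h : MvPolynomial.map (Int.castRingHom ℚ) G = MvPolynomial.C r * F) : G.IsHomogeneous d := by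
  intro u hu
  apply hF
  intro h0
  apply hu
  have h1 := congrArg (MvPolynomial.coeff u) h
  rw [MvPolynomial.coeff_map, MvPolynomial.coeff_C_mul, h0, mul_zero, eq_intCast] at h1
  exact_mod_cast h1

private lemma Rat_smul {n : ℕ} {F : MvPolynomial (Fin n) ℚ} {d : ℕ} (hF : F.IsHomogeneous d)
    (c : ℚ) (x : Fin n → ℚ) :
    MvPolynomial.eval (fun i => c * x i) F = c ^ d * MvPolynomial.eval x F := by
  classical
  rw [MvPolynomial.eval_eq, MvPolynomial.eval_eq, Finset.mul_sum]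
  refine Finset.sum_congr rfl fun u hu => ?_
  have h1 : u.degree = d := by
    have h2 := hF (MvPolynomial.mem_support_iff.1 hu)
    rwa [Finsupp.degree_eq_weight_one]
  have h3 : ∏ i ∈ u.support, (c * x i) ^ u i = c ^ d * ∏ i ∈ u.support, x i ^ u i := by
    simp only [mul_pow]
    rw [Finset.prod_mul_distrib, Finset.prod_pow_eq_pow_sum, ← h1]
    rfl
  rw [h3]
  ring

private lemma Rat_int (D : ℕ) (hD : 1 ≤ D) (z : ℤ) (q : ℚ) (h : ((z : ℤ) : ℚ) = q ^ D) :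
    ∃ T : ℤ, z = T ^ D := by
  have h1 : IsIntegral ℤ q := by
    refine IsIntegral.of_pow (n := D) hD ?_
    rw [← h]
    exact isIntegral_algebraMap (R := ℤ) (A := ℚ) (x := z)
  obtain ⟨T, hT⟩ := IsIntegrallyClosed.isIntegral_iff.1 h1
  refine ⟨T, ?_⟩
  rw [← hT] at h
  simp only [eq_intCast] at h
  exact_mod_cast h

/-- The rational version: clear denominators (`F₁ → k₁^D F₁` etc., `Q → k Q`), a rational `D`-th
power that is an integer is the `D`-th power of an integer, `N = 2` by a constant. -/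
theorem count_rat {m : ℕ} (D : ℕ) (hD : D.Prime) (F₁ G : MvPolynomial (Fin (m + 2)) ℚ)
    (d₁ d₂ : ℕ) (h₁ : F₁.IsHomogeneous d₁) (h₂ : G.IsHomogeneous d₂) (Q : Fin (m + 2) → ℚ)
    (hQ : ∀ (x : Fin (m + 2) → ℚ) (c : ℚ),
      MvPolynomial.eval (fun i => x i + c * Q i) F₁ = MvPolynomial.eval x F₁)
    (hGQ : MvPolynomial.eval Q G ≠ 0)
    (hfs : ∀ (c : ℚ) (P : MvPolynomial (Fin (m + 2)) ℚ), F₁ ≠ MvPolynomial.C c * P ^ D)
    (hGs : ∀ (c : ℚ) (P : MvPolynomial (Fin (m + 2)) ℚ), G ≠ MvPolynomial.C c * P ^ D) :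
    ∃ (c : ℕ) (C : ℝ), 0 ≤ C ∧ ∀ B : ℕ, 2 ≤ B →
      ({x : Fin (m + 2) → ℤ | (∀ i, |x i| ≤ (B : ℤ)) ∧ ∃ T : ℚ,
        MvPolynomial.eval (fun i => ((x i : ℤ) : ℚ)) (F₁ * G) = T ^ D}.ncard : ℝ) ≤
        C * (B : ℝ) ^ (m + 1) * (log B) ^ c := by
  classical
  have hD1 : 1 ≤ D := hD.one_lt.le
  obtain ⟨k₁, F', hk₁, eF⟩ := Rat_clearPow D hD1 F₁
  obtain ⟨k₂, G', hk₂, eG⟩ := Rat_clearPow D hD1 G
  obtain ⟨k₃, Q', hk₃, eQ⟩ := Rat_clearVec Q
  have hk₁' : ((k₁ : ℚ) ^ D) ≠ 0 := pow_ne_zero _ (by exact_mod_cast hk₁)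
  have hk₂' : ((k₂ : ℚ) ^ D) ≠ 0 := pow_ne_zero _ (by exact_mod_cast hk₂)
  have hk₃' : (k₃ : ℚ) ≠ 0 := by exact_mod_cast hk₃
  have evF : ∀ x : Fin (m + 2) → ℤ, ((MvPolynomial.eval x F' : ℤ) : ℚ) =
      (k₁ : ℚ) ^ D * MvPolynomial.eval (fun i => ((x i : ℤ) : ℚ)) F₁ := by
    intro x
    rw [← Rat_eval, eF, map_mul, MvPolynomial.eval_C]
  have evG : ∀ x : Fin (m + 2) → ℤ, ((MvPolynomial.eval x G' : ℤ) : ℚ) =
      (k₂ : ℚ) ^ D * MvPolynomial.eval (fun i => ((x i : ℤ) : ℚ)) G := by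
    intro x
    rw [← Rat_eval, eG, map_mul, MvPolynomial.eval_C]
  have hinv : ∀ (k : ℚ), k ≠ 0 → ∀ (A P : MvPolynomial (Fin (m + 2)) ℚ) (c : ℚ),
      MvPolynomial.C k * A = MvPolynomial.C c * P → A = MvPolynomial.C (c / k) * P := by
    intro k hk A P c h
    have h1 : MvPolynomial.C (k⁻¹) * (MvPolynomial.C k * A) = MvPolynomial.C (k⁻¹) *
        (MvPolynomial.C c * P) := by rw [h]
    rw [← mul_assoc, ← mul_assoc, ← map_mul, ← map_mul, inv_mul_cancel₀ hk, map_one, one_mul] at h1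
    rw [h1, div_eq_mul_inv, mul_comm c]
  obtain ⟨c, C, hC, hmain⟩ := main_coord D hD F' G' d₁ d₂ (Rat_hom h₁ eF) (Rat_hom h₂ eG) Q'
    (by
      intro x a
      have h1 : ((MvPolynomial.eval (fun i => x i + a * Q' i) F' : ℤ) : ℚ) =
          ((MvPolynomial.eval x F' : ℤ) : ℚ) := by
        rw [evF, evF, ← hQ (fun i => ((x i : ℤ) : ℚ)) ((a : ℚ) * k₃)]
        have h2 : (fun i => ((x i + a * Q' i : ℤ) : ℚ)) =
            fun i => ((x i : ℤ) : ℚ) + (a : ℚ) * k₃ * Q i := by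
          funext i
          push_cast
          rw [eQ]
          ring
        rw [h2]
      exact_mod_cast h1)
    (by
      intro h0
      have h1 := evG Q'
      rw [h0, Int.cast_zero] at h1
      have h2 : (fun i => ((Q' i : ℤ) : ℚ)) = fun i => (k₃ : ℚ) * Q i := funext eQ
      rw [h2, Rat_smul h₂] at h1
      exact mul_ne_zero hk₂' (mul_ne_zero (pow_ne_zero _ hk₃') hGQ) h1.symm)
    (by
      intro a P h
      rw [eF] at h
      exact hfs _ _ (hinv _ hk₁' _ _ _ h))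
    (by
      intro a P h
      rw [eG] at h
      exact hGs _ _ (hinv _ hk₂' _ _ _ h))
  have hsub : ∀ B : ℕ, {x : Fin (m + 2) → ℤ | (∀ i, |x i| ≤ (B : ℤ)) ∧ ∃ T : ℚ,
        MvPolynomial.eval (fun i => ((x i : ℤ) : ℚ)) (F₁ * G) = T ^ D} ⊆
      {x : Fin (m + 2) → ℤ | (∀ i, |x i| ≤ (B : ℤ)) ∧ ∃ T : ℤ,
        MvPolynomial.eval x F' * MvPolynomial.eval x G' = T ^ D} := by
    rintro B x ⟨hx, T, hT⟩
    refine ⟨hx, ?_⟩
    refine Rat_int D hD1 _ ((k₁ : ℚ) * k₂ * T) ?_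
    rw [map_mul] at hT
    push_cast
    rw [evF, evG, mul_pow, mul_pow, ← hT]
    ring
  have hfin : ∀ B : ℕ, {x : Fin (m + 2) → ℤ | (∀ i, |x i| ≤ (B : ℤ)) ∧ ∃ T : ℤ,
        MvPolynomial.eval x F' * MvPolynomial.eval x G' = T ^ D}.Finite := by
    intro B
    refine (Set.finite_Icc (fun _ : Fin (m + 2) => -(B : ℤ)) (fun _ => (B : ℤ))).subset ?_
    rintro x ⟨hx, -⟩
    exact ⟨fun i => (abs_le.1 (hx i)).1, fun i => (abs_le.1 (hx i)).2⟩
  set K : ℝ := ({x : Fin (m + 2) → ℤ | (∀ i, |x i| ≤ ((2 : ℕ) : ℤ)) ∧ ∃ T : ℚ,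
        MvPolynomial.eval (fun i => ((x i : ℤ) : ℚ)) (F₁ * G) = T ^ D}.ncard : ℝ) with hK
  have hK0 : 0 ≤ K := Nat.cast_nonneg _
  have hl2 : 0 < (log ((2 : ℕ) : ℝ)) ^ c := by
    have : 0 < log ((2 : ℕ) : ℝ) := Real.log_pos (by norm_num)
    positivity
  have hden : 0 < ((2 : ℕ) : ℝ) ^ (m + 1) * (log ((2 : ℕ) : ℝ)) ^ c := by positivity
  refine ⟨c, C + K / (((2 : ℕ) : ℝ) ^ (m + 1) * (log ((2 : ℕ) : ℝ)) ^ c), by positivity, ?_⟩
  intro B hB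
  rcases Nat.lt_or_ge B 3 with h3 | h3
  · obtain rfl : B = 2 := by omega
    rw [← hK, mul_assoc, add_mul, div_mul_cancel₀ _ hden.ne']
    have : 0 ≤ C * (((2 : ℕ) : ℝ) ^ (m + 1) * (log ((2 : ℕ) : ℝ)) ^ c) := by positivity
    linarith
  · have h4 := hmain B h3
    have h5 : ({x : Fin (m + 2) → ℤ | (∀ i, |x i| ≤ (B : ℤ)) ∧ ∃ T : ℚ,
        MvPolynomial.eval (fun i => ((x i : ℤ) : ℚ)) (F₁ * G) = T ^ D}.ncard : ℝ) ≤
        ({x : Fin (m + 2) → ℤ | (∀ i, |x i| ≤ (B : ℤ)) ∧ ∃ T : ℤ,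
        MvPolynomial.eval x F' * MvPolynomial.eval x G' = T ^ D}.ncard : ℝ) := by
      exact_mod_cast Set.ncard_le_ncard (hsub B) (hfin B)
    have h6 : 0 ≤ log (B : ℝ) := Real.log_natCast_nonneg B
    refine (h5.trans h4).trans ?_
    have h7 : 0 ≤ K / (((2 : ℕ) : ℝ) ^ (m + 1) * (log ((2 : ℕ) : ℝ)) ^ c) := by positivity
    have h8 : 0 ≤ (B : ℝ) ^ (m + 1) * (log (B : ℝ)) ^ c := by positivity
    nlinarith [mul_nonneg h7 h8]

end Pool.MP_aab329_nt.SerreC
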