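import Pool.Agent.Lib.MP_aab329_nt.Q.Rho

/-!
Roots modulo a squarefree number of a polynomial with a fixed leading coefficient.
-/

set_option autoImplicit false

namespace Pool.MP_aab329_nt.SerreC

open Finset Polynomial Pool.MP_aab329_nt.SerreQ

private lemma rs_prime (d : ℕ) (c₀ : ℤ) (hc₀ : c₀ ≠ 0) (h : ℤ[X]) (hd : h.natDegree = d)
    (hc : h.coeff d = c₀) (p : ℕ) (hp : p.Prime) : rho h p ≤ max (d + 1) c₀.natAbs := by
  by_cases hpc : (p : ℤ) ∣ c₀
  · have h1 : rho h p ≤ p := by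
      unfold rho
      exact (Finset.card_filter_le _ _).trans (by rw [Finset.card_range])
    have h2 : p ≤ c₀.natAbs :=
      Nat.le_of_dvd (Int.natAbs_pos.2 hc₀) (Int.natCast_dvd.1 hpc)
    exact (h1.trans h2).trans (le_max_right _ _)
  · have h1 := roots_pp h (d + 1) (by omega) (by omega) p hp ⟨d, by rw [hc]; exact hpc⟩ 1 le_rfl
    have h2 : cdiv 1 (d + 1) = 1 := by
      unfold cdiv
      rw [show 1 + (d + 1) - 1 = d + 1 by omega]
      exact Nat.div_self (by omega)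
    rw [h2, pow_one] at h1
    have h3 : rho h p ≤ d + 1 := Nat.le_of_mul_le_mul_right h1 hp.pos
    exact h3.trans (le_max_left _ _)

private lemma rs_sq (M : ℕ) (h : ℤ[X]) (hM : ∀ p : ℕ, p.Prime → rho h p ≤ M) (e : ℕ) :
    Squarefree e → rho h e ≤ M ^ e.primeFactors.card := by
  induction e using Nat.recOnPosPrimePosCoprime with
  | prime_pow p k hp hk =>
    intro hs
    have hk1 : k = 1 := by
      by_contra hcon
      have h2 : 2 ≤ k := by omega
      have h3 : p * p ∣ p ^ k := by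
        rw [← pow_two]; exact pow_dvd_pow p h2
      exact hp.one_lt.ne' (Nat.isUnit_iff.1 (hs p h3))
    rw [hk1, pow_one, hp.primeFactors, Finset.card_singleton, pow_one]
    exact hM p hp
  | zero => intro hs; exact absurd hs not_squarefree_zero
  | one => intro _; simp [rho]
  | coprime a b ha hb hab iha ihb =>
    intro hs
    rw [rho_mul h hab, hab.primeFactors_mul,
      Finset.card_union_of_disjoint hab.disjoint_primeFactors, pow_add]
    exact Nat.mul_le_mul (iha (hs.squarefree_of_dvd (dvd_mul_right a b)))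
      (ihb (hs.squarefree_of_dvd (dvd_mul_left b a)))

/-- `ρ(p) ≤ d` if `p ∤ c₀`, `ρ(p) ≤ p ≤ |c₀|` if `p ∣ c₀`; so `ρ(e) ≤ (max d |c₀|)^ω(e)`
(`rho_mul`), and `2^ω(e) ≤ τ(e)` (`two_pow_omega_le`). -/
theorem rho_sqfree (d : ℕ) (c₀ : ℤ) (hc₀ : c₀ ≠ 0) : ∃ K : ℕ, ∀ h : ℤ[X], h.natDegree = d →
    h.coeff d = c₀ → ∀ e : ℕ, Squarefree e → rho h e ≤ tau e ^ K := by
  refine ⟨max (d + 1) c₀.natAbs, fun h hd hc e he => ?_⟩
  have h1 := rs_sq (max (d + 1) c₀.natAbs) h (fun p hp => rs_prime d c₀ hc₀ h hd hc p hp) e he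
  refine h1.trans ?_
  calc (max (d + 1) c₀.natAbs) ^ e.primeFactors.card
      ≤ (2 ^ (max (d + 1) c₀.natAbs)) ^ e.primeFactors.card :=
        Nat.pow_le_pow_left (Nat.lt_two_pow_self).le _
    _ = (2 ^ e.primeFactors.card) ^ (max (d + 1) c₀.natAbs) := by
        rw [← pow_mul, ← pow_mul, mul_comm]
    _ ≤ _ := Nat.pow_le_pow_left (two_pow_omega_le he.ne_zero) _

end Pool.MP_aab329_nt.SerreC
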