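import Pool.Agent.Lib.MP_aab329_nt.C.Core
import Pool.Agent.Lib.MP_aab329_nt.C.RhoSq
import Pool.Agent.Lib.MP_aab329_nt.C.CurveOne

/-!
`D`-th powers among the values of a polynomial times a constant.
-/

set_option autoImplicit false

namespace Pool.MP_aab329_nt.SerreC

open Finset Polynomial Real Pool.MP_aab329_nt.SerreQ

/-- `h` is not a constant times a `D`-th power. -/
def NPow (D : ℕ) (h : ℤ[X]) : Prop :=
  ∀ (c : ℚ) (q : ℚ[X]), h.map (Int.castRingHom ℚ) ≠ C c * q ^ D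

private lemma slice_npow {D : ℕ} {h : ℤ[X]} (hNP : NPow D h) {a : ℤ} (ha : a ≠ 0) (r : ℤ) {ϱ : ℤ}
    (hϱ : ϱ ≠ 0) (q : ℚ[X]) :
    (C a * h.comp (C r + C ϱ * X)).map (Int.castRingHom ℚ) ≠ q ^ D := by
  intro hq
  have haQ : (a : ℚ) ≠ 0 := by exact_mod_cast ha
  have hϱQ : (ϱ : ℚ) ≠ 0 := by exact_mod_cast hϱ
  set L : ℚ[X] := C ((ϱ : ℚ)⁻¹) * (X - C (r : ℚ)) with hL
  apply hNP ((a : ℚ)⁻¹) (q.comp L)
  have h1 : ((C a * h.comp (C r + C ϱ * X)).map (Int.castRingHom ℚ)).comp L =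
      C (a : ℚ) * h.map (Int.castRingHom ℚ) := by
    rw [Polynomial.map_mul, Polynomial.map_comp, Polynomial.mul_comp, Polynomial.comp_assoc]
    have h2 : ((C r + C ϱ * X : ℤ[X]).map (Int.castRingHom ℚ)).comp L = X := by
      rw [Polynomial.map_add, Polynomial.map_mul, Polynomial.map_C, Polynomial.map_C,
        Polynomial.map_X, Polynomial.add_comp, Polynomial.mul_comp, Polynomial.C_comp,
        Polynomial.C_comp, Polynomial.X_comp, hL, ← mul_assoc, ← Polynomial.C_mul]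
      simp [hϱQ]
    rw [h2, Polynomial.comp_X, Polynomial.map_C, Polynomial.C_comp]
    simp
  rw [hq, Polynomial.pow_comp] at h1
  rw [h1, ← mul_assoc, ← Polynomial.C_mul, inv_mul_cancel₀ haQ, Polynomial.C_1, one_mul]

private lemma slice_rpow {p x : ℝ} (hx : 0 ≤ x) (hp : 0 ≤ p) (hp1 : p ≤ 1) :
    (x + 1) ^ p ≤ x ^ p + 1 := by
  have h := Real.rpow_add_le_add_rpow hx (zero_le_one) hp hp1
  rwa [Real.one_rpow] at h

/-- Let `ϱ = rk D a`. If `a h(x) = T^D ≠ 0` then `ϱ ∣ h(x)` (`rk_dvd_of_pow`), so `x` is in one of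
`rho h ϱ ≤ τ(ϱ)^K` classes modulo `ϱ`; in the class `x = r + ϱ u`, `0 ≤ r < ϱ`,
`|u| ≤ U = N / ϱ + 1`, and `a h(r + ϱ u)` is a polynomial in `u` of degree `≤ d`, not a `D`-th
power, of size `≤ W = C' N^E'` for `|u| ≤ U` (there `|r + ϱ u| ≤ 2 ϱ + N`; if `ϱ > N` use directly
that each class has at most `3` elements in `[-N, N]`; if `ϱ ≤ N` then `|r + ϱ u| ≤ 3 N`: take
hypothesis `hb` for `3 N`). `curve_one`; `(N / ϱ + 1)^(1/D) ≤ (N / ϱ)^(1/D) + 1`. -/
theorem slice (D d E : ℕ) (c₀ : ℤ) (C₁ : ℝ) (hD : D.Prime) (hc₀ : c₀ ≠ 0) (hC₁ : 1 ≤ C₁) :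
    ∃ (K c : ℕ) (C : ℝ), 0 < C ∧ ∀ h : ℤ[X], h.natDegree = d → h.coeff d = c₀ → NPow D h →
    ∀ a : ℤ, a ≠ 0 → ∀ N : ℕ, 3 ≤ N → |(a : ℝ)| ≤ C₁ * (N : ℝ) ^ E →
    (∀ x : ℤ, |x| ≤ 3 * N → |((h.eval x : ℤ) : ℝ)| ≤ C₁ * (N : ℝ) ^ E) →
    ({x : ℤ | |x| ≤ N ∧ h.eval x ≠ 0 ∧ ∃ T : ℤ, a * h.eval x = T ^ D}.ncard : ℝ) ≤
      C * (tau (rk D a) : ℝ) ^ K * (((N : ℝ) / rk D a) ^ (1 / (D : ℝ)) + 1) * (log N) ^ c := by
  classical
  obtain ⟨K, hK⟩ := rho_sqfree d c₀ hc₀
  obtain ⟨c, C₂, hC₂, hcurve⟩ := curve_one D d hD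
  set A : ℝ := 2 + 2 * log C₁ + (2 * E + 1) with hA
  have hlogC₁ : 0 ≤ log C₁ := Real.log_nonneg hC₁
  have hA0 : 0 < A := by positivity
  have hD0 : (0 : ℝ) < D := by exact_mod_cast hD.pos
  have hD1 : (1 : ℝ) ≤ D := by exact_mod_cast hD.one_lt.le
  refine ⟨K, c, 2 + C₂ * A ^ c, by positivity, ?_⟩
  intro h hd hcoef hNP a ha N hN haN hb
  set ϱ : ℕ := rk D a with hϱ
  have hϱ1 : 1 ≤ ϱ := rk_pos D a
  have hϱsq : Squarefree ϱ := rk_squarefree D a
  have hϱR : (1 : ℝ) ≤ ϱ := by exact_mod_cast hϱ1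
  have hϱZ : (1 : ℤ) ≤ ϱ := by exact_mod_cast hϱ1
  have hNR : (3 : ℝ) ≤ N := by exact_mod_cast hN
  have hlogN : 1 ≤ log N := by
    rw [Real.le_log_iff_exp_le (by positivity)]
    exact (Real.exp_one_lt_d9.le.trans (by norm_num)).trans hNR
  set R : Finset ℕ := (Finset.range ϱ).filter (fun x : ℕ => (ϱ : ℤ) ∣ h.eval (x : ℤ)) with hR
  have hRcard : R.card ≤ tau ϱ ^ K := hK h hd hcoef ϱ hϱsq
  set S : Finset ℤ := (Finset.Icc (-(N : ℤ)) N).filter
    (fun x => h.eval x ≠ 0 ∧ ∃ T : ℤ, a * h.eval x = T ^ D) with hS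
  have hSset : {x : ℤ | |x| ≤ N ∧ h.eval x ≠ 0 ∧ ∃ T : ℤ, a * h.eval x = T ^ D} = (S : Set ℤ) := by
    ext x
    rw [Finset.mem_coe, hS, Finset.mem_filter, Finset.mem_Icc, ← abs_le]
    exact Iff.rfl
  rw [hSset, Set.ncard_coe_finset]
  set Y : ℝ := ((N : ℝ) / ϱ) ^ (1 / (D : ℝ)) + 1 with hY
  have hY1 : 1 ≤ Y := by
    have : 0 ≤ ((N : ℝ) / ϱ) ^ (1 / (D : ℝ)) := Real.rpow_nonneg (by positivity) _
    linarith
  have hlogc : 1 ≤ (log N) ^ c := one_le_pow₀ hlogN
  -- one class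
  have hfib : ∀ r ∈ R, ((S.filter (fun x => (x % (ϱ : ℤ)).toNat = r)).card : ℝ) ≤
      (2 + C₂ * A ^ c) * Y * (log N) ^ c := by
    intro r hr
    rw [hR, Finset.mem_filter, Finset.mem_range] at hr
    obtain ⟨hr1, hr2⟩ := hr
    have hmod : ∀ x ∈ S.filter (fun x => (x % (ϱ : ℤ)).toNat = r), x % (ϱ : ℤ) = r := by
      intro x hx
      rw [Finset.mem_filter] at hx
      have h1 : 0 ≤ x % (ϱ : ℤ) := Int.emod_nonneg _ (by omega)
      have h2 := hx.2
      omega
    have hdiv : ∀ x ∈ S.filter (fun x => (x % (ϱ : ℤ)).toNat = r),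
        x = r + ϱ * (x / (ϱ : ℤ)) := by
      intro x hx
      have h1 := hmod x hx
      have h2 := Int.emod_add_mul_ediv x (ϱ : ℤ)
      rw [h1] at h2
      exact h2.symm
    rcases Nat.lt_or_ge N ϱ with hcase | hcase
    · -- large `ϱ`
      have h1 : (S.filter (fun x => (x % (ϱ : ℤ)).toNat = r)).card ≤ ({-1, 0} : Finset ℤ).card := by
        refine Finset.card_le_card_of_injOn (fun x => x / (ϱ : ℤ)) ?_ ?_
        · intro x hx
          have hx' := hx
          rw [Finset.mem_coe] at hx'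
          have e := hdiv x hx'
          rw [Finset.mem_coe, Finset.mem_filter, hS, Finset.mem_filter, Finset.mem_Icc] at hx
          obtain ⟨⟨⟨hx1, hx2⟩, _⟩, _⟩ := hx
          have hr0 : (r : ℤ) < ϱ := by exact_mod_cast hr1
          have hr3 : (0 : ℤ) ≤ r := by positivity
          have hNϱ : (N : ℤ) < ϱ := by exact_mod_cast hcase
          have h3 : -2 < x / (ϱ : ℤ) := by
            by_contra hcon
            push Not at hcon
            nlinarith
          have h4 : x / (ϱ : ℤ) < 1 := by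
            by_contra hcon
            push Not at hcon
            nlinarith
          rw [Finset.mem_coe, Finset.mem_insert, Finset.mem_singleton]
          change x / (ϱ : ℤ) = -1 ∨ x / (ϱ : ℤ) = 0
          omega
        · intro x hx y hy hxy
          rw [Finset.mem_coe] at hx hy
          have e1 := hdiv x hx
          have e2 := hdiv y hy
          simp only at hxy
          rw [e1, e2, hxy]
      have h2 : ({-1, 0} : Finset ℤ).card = 2 := by decide
      rw [h2] at h1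
      have h3 : ((S.filter (fun x => (x % (ϱ : ℤ)).toNat = r)).card : ℝ) ≤ 2 := by exact_mod_cast h1
      refine h3.trans ?_
      have h4 : (2 : ℝ) ≤ 2 + C₂ * A ^ c := by
        have : 0 ≤ C₂ * A ^ c := by positivity
        linarith
      calc (2 : ℝ) ≤ 2 + C₂ * A ^ c := h4
        _ ≤ (2 + C₂ * A ^ c) * Y := le_mul_of_one_le_right (by linarith) hY1
        _ ≤ (2 + C₂ * A ^ c) * Y * (log N) ^ c :=
            le_mul_of_one_le_right (mul_nonneg (by linarith) (by linarith)) hlogc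
    · -- small `ϱ`
      have hϱN : (ϱ : ℝ) ≤ N := by exact_mod_cast hcase
      set g : ℤ[X] := C a * h.comp (C (r : ℤ) + C (ϱ : ℤ) * X) with hg
      have hgeval : ∀ u : ℤ, g.eval u = a * h.eval ((r : ℤ) + ϱ * u) := by
        intro u
        rw [hg]
        simp [Polynomial.eval_comp]
      have hgdeg : g.natDegree ≤ d := by
        rw [hg]
        refine (Polynomial.natDegree_C_mul_le _ _).trans ?_
        refine Polynomial.natDegree_comp_le.trans ?_
        rw [hd]
        have h1 : (C (r : ℤ) + C (ϱ : ℤ) * X : ℤ[X]).natDegree ≤ 1 := by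
          rw [add_comm]
          exact Polynomial.natDegree_linear_le
        calc d * (C (r : ℤ) + C (ϱ : ℤ) * X : ℤ[X]).natDegree ≤ d * 1 := Nat.mul_le_mul_left _ h1
          _ = d := mul_one d
      have hgN : ∀ q : ℚ[X], g.map (Int.castRingHom ℚ) ≠ q ^ D := by
        intro q
        exact slice_npow hNP ha r (by omega) q
      set U : ℝ := (N : ℝ) / ϱ + 1 with hU
      set W : ℝ := 3 * C₁ ^ 2 * (N : ℝ) ^ (2 * E + 1) with hW
      have hU1 : 1 ≤ U := by
        have : 0 ≤ (N : ℝ) / ϱ := by positivity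
        linarith
      have hNp : (1 : ℝ) ≤ (N : ℝ) ^ (2 * E) := one_le_pow₀ (by linarith)
      have hC₁2 : 1 ≤ C₁ ^ 2 := one_le_pow₀ hC₁
      have hCN : 1 ≤ C₁ ^ 2 * (N : ℝ) ^ (2 * E) := by nlinarith
      have hW' : W = 3 * N * (C₁ ^ 2 * (N : ℝ) ^ (2 * E)) := by
        rw [hW, pow_succ]
        ring
      have h3N : 3 * (N : ℝ) ≤ W := by
        rw [hW']
        nlinarith
      have hUW : U ≤ W := by
        refine le_trans ?_ h3N
        have : (N : ℝ) / ϱ ≤ N := div_le_self (by positivity) hϱR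
        linarith
      have hW3 : 3 ≤ W := by linarith
      have hsize : ∀ u : ℤ, |(u : ℝ)| ≤ U → |((g.eval u : ℤ) : ℝ)| ≤ W := by
        intro u hu
        rw [hgeval]
        have h1 : |(r : ℤ) + ϱ * u| ≤ 3 * N := by
          have h2 : |((r : ℝ) + ϱ * u)| ≤ 3 * N := by
            have h3 : |(ϱ : ℝ) * u| ≤ N + ϱ := by
              rw [abs_mul, abs_of_pos (by linarith : (0 : ℝ) < ϱ)]
              have h4 : (ϱ : ℝ) * |(u : ℝ)| ≤ ϱ * U := mul_le_mul_of_nonneg_left hu (by linarith)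
              have h5 : (ϱ : ℝ) * U = N + ϱ := by
                rw [hU]
                field_simp
              linarith
            have h6 : (r : ℝ) ≤ ϱ := by exact_mod_cast hr1.le
            calc |((r : ℝ) + ϱ * u)| ≤ |(r : ℝ)| + |(ϱ : ℝ) * u| := abs_add_le _ _
              _ ≤ ϱ + (N + ϱ) := by
                  rw [Nat.abs_cast]
                  linarith
              _ ≤ 3 * N := by linarith
          have h7 : ((|(r : ℤ) + ϱ * u| : ℤ) : ℝ) ≤ ((3 * N : ℤ) : ℝ) := by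
            push_cast
            exact h2
          exact_mod_cast h7
        have h2 := hb _ h1
        push_cast at h2 ⊢
        rw [abs_mul]
        have h3 : |(a : ℝ)| * |((h.eval ((r : ℤ) + ϱ * u) : ℤ) : ℝ)| ≤
            (C₁ * (N : ℝ) ^ E) * (C₁ * (N : ℝ) ^ E) :=
          mul_le_mul haN h2 (abs_nonneg _) (by positivity)
        refine h3.trans ?_
        have h4 : (C₁ * (N : ℝ) ^ E) * (C₁ * (N : ℝ) ^ E) = C₁ ^ 2 * (N : ℝ) ^ (2 * E) := by
          rw [two_mul, pow_add]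
          ring
        rw [h4, hW']
        have h5 : 0 ≤ C₁ ^ 2 * (N : ℝ) ^ (2 * E) := by positivity
        nlinarith
      have hcv := hcurve g hgdeg hgN U W hU1 hUW hW3 hsize
      set T : Set ℤ := {u : ℤ | |(u : ℝ)| ≤ U ∧ g.eval u ≠ 0 ∧ ∃ T : ℤ, g.eval u = T ^ D} with hT
      have hTfin : T.Finite := by
        refine (Set.finite_Icc (-(⌈U⌉ : ℤ)) ⌈U⌉).subset ?_
        intro u hu
        have hu1 : |(u : ℝ)| ≤ U := hu.1
        rw [abs_le] at hu1
        have h1 : U ≤ (⌈U⌉ : ℝ) := Int.le_ceil U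
        constructor
        · have : ((-(⌈U⌉ : ℤ) : ℤ) : ℝ) ≤ (u : ℝ) := by
            push_cast
            linarith
          exact_mod_cast this
        · have : (u : ℝ) ≤ ((⌈U⌉ : ℤ) : ℝ) := by linarith
          exact_mod_cast this
      have hle : (S.filter (fun x => (x % (ϱ : ℤ)).toNat = r)).card ≤ T.ncard := by
        rw [Set.ncard_eq_toFinset_card T hTfin]
        refine Finset.card_le_card_of_injOn (fun x => x / (ϱ : ℤ)) ?_ ?_
        · intro x hx
          have hx' := hx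
          rw [Finset.mem_coe] at hx'
          have e := hdiv x hx'
          rw [Finset.mem_coe, Finset.mem_filter, hS, Finset.mem_filter, Finset.mem_Icc] at hx
          obtain ⟨⟨⟨hx1, hx2⟩, hx3, hx4⟩, _⟩ := hx
          rw [Finset.mem_coe, Set.Finite.mem_toFinset]
          have e3 : g.eval (x / (ϱ : ℤ)) = a * h.eval x := by
            rw [hgeval, ← e]
          refine ⟨?_, ?_, ?_⟩
          · have h5 : (ϱ : ℝ) * ((x / (ϱ : ℤ) : ℤ) : ℝ) = x - r := by
              have : (x : ℝ) = r + ϱ * ((x / (ϱ : ℤ) : ℤ) : ℝ) := by exact_mod_cast e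
              linarith
            have hx1R : -(N : ℝ) ≤ x := by exact_mod_cast hx1
            have hx2R : (x : ℝ) ≤ N := by exact_mod_cast hx2
            have hrR : (r : ℝ) ≤ ϱ := by exact_mod_cast hr1.le
            have hr0R : (0 : ℝ) ≤ r := by positivity
            have hϱpos : (0 : ℝ) < ϱ := by linarith
            have h6 : (ϱ : ℝ) * U = N + ϱ := by
              rw [hU]
              field_simp
            change |((x / (ϱ : ℤ) : ℤ) : ℝ)| ≤ U
            rw [abs_le]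
            constructor
            · have : (ϱ : ℝ) * (-U) ≤ ϱ * ((x / (ϱ : ℤ) : ℤ) : ℝ) := by
                rw [h5]
                linarith
              exact le_of_mul_le_mul_left this hϱpos
            · have : (ϱ : ℝ) * ((x / (ϱ : ℤ) : ℤ) : ℝ) ≤ ϱ * U := by
                rw [h5]
                linarith
              exact le_of_mul_le_mul_left this hϱpos
          · change g.eval (x / (ϱ : ℤ)) ≠ 0
            rw [e3]
            exact mul_ne_zero ha hx3
          · obtain ⟨T', hT'⟩ := hx4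
            exact ⟨T', e3.trans hT'⟩
        · intro x hx y hy hxy
          rw [Finset.mem_coe] at hx hy
          have e1 := hdiv x hx
          have e2 := hdiv y hy
          simp only at hxy
          rw [e1, e2, hxy]
      have hleR : ((S.filter (fun x => (x % (ϱ : ℤ)).toNat = r)).card : ℝ) ≤ (T.ncard : ℝ) := by
        exact_mod_cast hle
      refine (hleR.trans hcv).trans ?_
      -- the logarithm
      have hlogW : log W ≤ A * log N := by
        rw [hW, Real.log_mul (by positivity) (by positivity), Real.log_mul (by norm_num) (by positivity),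
          Real.log_pow, Real.log_pow]
        have h3 : log 3 ≤ 2 := by
          have := Real.log_le_sub_one_of_pos (by norm_num : (0 : ℝ) < 3)
          linarith
        push_cast
        rw [hA]
        nlinarith
      have hlogW0 : 0 ≤ log W := Real.log_nonneg (by linarith)
      have h1 : (log W) ^ c ≤ A ^ c * (log N) ^ c := by
        rw [← mul_pow]
        exact pow_le_pow_left₀ hlogW0 hlogW c
      have h2 : U ^ (1 / (D : ℝ)) ≤ Y := by
        rw [hU, hY]
        exact slice_rpow (by positivity) (by positivity) (by rw [div_le_one hD0]; exact hD1)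
      have h3 : C₂ * U ^ (1 / (D : ℝ)) * (log W) ^ c ≤ C₂ * Y * (A ^ c * (log N) ^ c) := by
        refine mul_le_mul (mul_le_mul_of_nonneg_left h2 hC₂.le) h1 (pow_nonneg hlogW0 _) (by positivity)
      refine h3.trans ?_
      have h4 : 0 ≤ 2 * Y * (log N) ^ c := by positivity
      calc C₂ * Y * (A ^ c * (log N) ^ c) ≤ C₂ * Y * (A ^ c * (log N) ^ c) + 2 * Y * (log N) ^ c := by
            linarith
        _ = (2 + C₂ * A ^ c) * Y * (log N) ^ c := by ring
  have hmaps : ∀ x ∈ S, (x % (ϱ : ℤ)).toNat ∈ R := by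
    intro x hx
    rw [hS, Finset.mem_filter] at hx
    obtain ⟨_, hx1, T, hT⟩ := hx
    have hdvd : (ϱ : ℤ) ∣ h.eval x := rk_dvd_of_pow D a (h.eval x) T ha hx1 hT
    have h1 : 0 ≤ x % (ϱ : ℤ) := Int.emod_nonneg _ (by omega)
    have h2 : x % (ϱ : ℤ) < ϱ := Int.emod_lt_of_pos _ (by omega)
    rw [hR, Finset.mem_filter, Finset.mem_range]
    refine ⟨by omega, ?_⟩
    rw [Int.toNat_of_nonneg h1]
    have h3 : (ϱ : ℤ) ∣ x - x % (ϱ : ℤ) := by
      have h4 := Int.emod_add_mul_ediv x (ϱ : ℤ)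
      exact ⟨x / (ϱ : ℤ), by linarith⟩
    have h5 : (ϱ : ℤ) ∣ h.eval x - h.eval (x % (ϱ : ℤ)) :=
      h3.trans (Polynomial.sub_dvd_eval_sub x _ h)
    have h6 := dvd_sub hdvd h5
    rwa [sub_sub_cancel] at h6
  have h1 := Finset.card_eq_sum_card_fiberwise (f := fun x : ℤ => (x % (ϱ : ℤ)).toNat) (s := S) (t := R)
    hmaps
  rw [h1]
  push_cast
  calc ∑ r ∈ R, ((S.filter (fun x => (x % (ϱ : ℤ)).toNat = r)).card : ℝ)
      ≤ ∑ r ∈ R, (2 + C₂ * A ^ c) * Y * (log N) ^ c := Finset.sum_le_sum hfib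
    _ = (R.card : ℝ) * ((2 + C₂ * A ^ c) * Y * (log N) ^ c) := by
        rw [Finset.sum_const, nsmul_eq_mul]
    _ ≤ (tau ϱ : ℝ) ^ K * ((2 + C₂ * A ^ c) * Y * (log N) ^ c) :=
        mul_le_mul_of_nonneg_right (by exact_mod_cast hRcard) (by positivity)
    _ = (2 + C₂ * A ^ c) * (tau ϱ : ℝ) ^ K * Y * (log N) ^ c := by ring


end Pool.MP_aab329_nt.SerreC
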